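import Pool.Agent.R693.E.B6

/-!
Piece OB: the Ore localisation step. `R` generated by the domain `R₀` (with a chain of generators)
and `x`; if `R` is prime then it is a domain, given the theorem for chains of length `n` over all
fields of characteristic zero.
-/

set_option autoImplicit false

namespace Pool.Agent.R693.O

variable {K : Type} [Field K] {E : Type} [Ring E] [Algebra K E]

theorem ore_step [CharZero K] (n : ℕ)
    (IHn : ∀ (K' : Type) [Field K'] (E' : Type) [Ring E'] [Algebra K' E'] (T : Subalgebra K' E'),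
      Ch K' n T → IsNoetherianRing T)
    (IH : ∀ (K' : Type) [Field K'] [CharZero K'] (E' : Type) [Ring E'] [Algebra K' E']
      (T : Subalgebra K' E'), Ch K' n T → PrimeS T → DomS T)
    (R₀ R : Subalgebra K E) (x : E) (hch : Ch K n R₀)
    (hx : ∀ r ∈ R₀, x * r - r * x ∈ R₀) (hR : R = Algebra.adjoin K (insert x (R₀ : Set E)))
    (hN₀ : IsNoetherianRing R₀) (hN : IsNoetherianRing R) (hNr : IsNoetherianRing Rᵐᵒᵖ)
    (hP : PrimeS R) (hD₀ : DomS R₀) : DomS R := by
  classical
  have _ := hN
  have hR₀R : R₀ ≤ R := by rw [hR]; exact fun s hs => Algebra.subset_adjoin (Or.inr hs)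
  have hxR : x ∈ R := by rw [hR]; exact Algebra.subset_adjoin (Or.inl rfl)
  let B : Subring R := (R₀.comap R.val).toSubring
  let X : R := ⟨x, hxR⟩
  have hBm : ∀ b : R, b ∈ B ↔ (b : E) ∈ R₀ := fun b => Iff.rfl
  have hX : ∀ b ∈ B, X * b - b * X ∈ B := fun b hb => hx b.1 hb
  have hBpow : ∀ b ∈ B, Lw B X 1 b := fun b hb => ⟨b, hb, 0, rfl, by simp⟩
  have hgen : ∀ a : R, ∃ m, Lw B X m a := by
    rintro ⟨a, ha⟩
    have ha' := ha
    rw [hR] at ha'
    have key : ∀ z : E, z ∈ Algebra.adjoin K (insert x (R₀ : Set E)) → ∃ h : z ∈ R,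
        ∃ m, Lw B X m ⟨z, h⟩ := by
      intro z hz
      induction hz using Algebra.adjoin_induction with
      | mem t ht =>
        rcases ht with rfl | ht
        · refine ⟨hxR, 2, 1, B.one_mem, 0, Lw_zero 1, ?_⟩
          apply Subtype.ext; simp [X]
        · exact ⟨hR₀R ht, 1, hBpow _ ht⟩
      | algebraMap k =>
        exact ⟨Subalgebra.algebraMap_mem _ k, 1, hBpow _ (Subalgebra.algebraMap_mem R₀ k)⟩
      | add a b _ _ iha ihb =>
        obtain ⟨ha, m, hm⟩ := iha
        obtain ⟨hb, k, hk⟩ := ihb
        exact ⟨Subalgebra.add_mem _ ha hb, max m k, Lw_add _ _ _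
          (Lw_mono (le_max_left m k) _ hm) (Lw_mono (le_max_right m k) _ hk)⟩
      | mul a b _ _ iha ihb =>
        obtain ⟨ha, m, hm⟩ := iha
        obtain ⟨hb, k, hk⟩ := ihb
        obtain ⟨j, hj⟩ := Lw_mul hX m k _ _ hm hk
        exact ⟨Subalgebra.mul_mem _ ha hb, j, hj⟩
    exact (key a ha').2
  have D : Dat B X :=
    { hX := hX
      gen := hgen
      dom := by
        intro a ha b hb hab
        rcases hD₀ a.1 ha b.1 hb (congrArg Subtype.val hab) with h | h
        · exact Or.inl (Subtype.ext h)
        · exact Or.inr (Subtype.ext h)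
      ore := by
        intro a ha c hc hc0
        obtain ⟨u, v, hu0, huv⟩ := ore_of_noeth (S := R₀) (by
          intro a b hab
          rcases hD₀ a.1 a.2 b.1 b.2 (congrArg Subtype.val hab) with h | h
          · exact Or.inl (Subtype.ext h)
          · exact Or.inr (Subtype.ext h)) ⟨a.1, ha⟩ ⟨c.1, hc⟩
          (fun h => hc0 (Subtype.ext (congrArg (Subtype.val : R₀ → E) h)))
        refine ⟨⟨u.1, hR₀R u.2⟩, u.2,
          fun h => hu0 (Subtype.ext (congrArg (Subtype.val : R → E) h)),
          ⟨v.1, hR₀R v.2⟩, v.2, ?_⟩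
        apply Subtype.ext
        exact congrArg (Subtype.val : R₀ → E) huv
      one := fun h => hP.1 (congrArg Subtype.val h)
      prime := by
        intro a b hab
        rcases hP.2 a.1 a.2 b.1 b.2 (fun r hr => congrArg Subtype.val (hab ⟨r, hr⟩)) with h | h
        · exact Or.inl (Subtype.ext h)
        · exact Or.inr (Subtype.ext h) }
  have goal : ∀ a b : R, a * b = 0 → a = 0 ∨ b = 0 := by
    by_cases hfree : ∀ (m : ℕ) (c : R), c ∈ B → Lw B X m (c * X ^ m) → c = 0
    · exact dom_of_free D hfree
    obtain ⟨d, N⟩ := exists_algDeg hfree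
    obtain ⟨F, _, ι, H⟩ := exists_frac D N hNr
    have hnt : Nontrivial F := ⟨1, 0, fun h => D.one (H.inj (by rw [map_one, map_zero, h]))⟩
    have hchar : ∀ n : ℕ, n ≠ 0 → ∀ a : R, (n : R) * a = 0 → a = 0 := by
      intro n hn a ha
      have h1 : ((n : K)) • a = 0 := by
        rw [← ha, Nat.cast_smul_eq_nsmul, nsmul_eq_mul]
      rcases smul_eq_zero.1 h1 with h | h
      · exact absurd (Nat.cast_eq_zero.1 h) hn
      · exact h
    obtain ⟨c, hc, c', hc', b, hb, hc'0, y, hy, hcy⟩ := exists_central H D N hchar
    -- the centre is a field of characteristic zero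
    have hcu : ∀ a : Subring.center F, IsUnit a ∨ a = 0 := by
      intro a
      by_cases ha : a = 0
      · exact Or.inr ha
      left
      have haz : ∀ f, (a : F) * f = f * a := fun f => ((Subring.mem_center_iff.1 a.2) f).symm
      have hunit := central_unit D H N (a : F) haz (fun h => ha (Subtype.ext h))
      obtain ⟨w, hw1, hw2⟩ := isUnit_iff_exists.1 hunit
      have hwc : w ∈ Subring.center F := by
        rw [Subring.mem_center_iff]
        intro f
        calc f * w = w * a * (f * w) := by rw [hw2, one_mul]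
          _ = w * (a * f) * w := by noncomm_ring
          _ = w * (f * a) * w := by rw [haz]
          _ = w * f * (a * w) := by noncomm_ring
          _ = w * f := by rw [hw1, mul_one]
      exact isUnit_iff_exists.2 ⟨⟨w, hwc⟩, Subtype.ext hw1, Subtype.ext hw2⟩
    let fld : Field (Subring.center F) := Field.ofIsUnitOrEqZero hcu
    let alg : Algebra (Subring.center F) F :=
      RingHom.toAlgebra' (Subring.center F).subtype
        (fun c f => ((Subring.mem_center_iff.1 c.2) f).symm)
    have halg : ∀ k : Subring.center F, algebraMap (Subring.center F) F k = (k : F) := fun _ => rfl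
    have hch0 : CharZero (Subring.center F) := by
      apply charZero_of_inj_zero
      intro n hn
      by_contra hn0
      have h1 : (n : F) = 0 := by
        have := congrArg (Subtype.val : Subring.center F → F) hn
        simpa using this
      have h2 : ι (n : R) = 0 := by rw [map_natCast, h1]
      have h3 : (n : R) = 0 := H.inj (by rw [h2, map_zero])
      exact D.one (hchar n hn0 1 (by rw [mul_one, h3]))
    have hφ : ∀ k : K, ∃ k' : Subring.center F, ι (algebraMap K R k) =
        algebraMap (Subring.center F) F k' := by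
      intro k
      have hcen := H.central D (ι (algebraMap K R k))
        (fun b _ => by rw [← map_mul, ← map_mul, Algebra.commutes])
        (by rw [← map_mul, ← map_mul, Algebra.commutes])
      exact ⟨⟨ι (algebraMap K R k), Subring.mem_center_iff.2 (fun f => (hcen f).symm)⟩, rfl⟩
    have hchT : Ch (Subring.center F) n (Algebra.adjoin (Subring.center F) (ι '' (B : Set R))) :=
      Ch_transfer ι hφ n (R₀.comap R.val) (Ch_comap R n R₀ hR₀R hch)
    have hyT : y ∈ Algebra.adjoin (Subring.center F) (ι '' (B : Set R)) :=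
      Subalgebra.algebraMap_mem _ (⟨y, Subring.mem_center_iff.2 (fun f => (hy f).symm)⟩ :
        Subring.center F)
    have hBT : ∀ b ∈ B, ι b ∈ Algebra.adjoin (Subring.center F) (ι '' (B : Set R)) :=
      fun b hb => Algebra.subset_adjoin ⟨b, hb, rfl⟩
    have hden := T_denom (K' := Subring.center F) D H ⟨c', hc', hc'0, by
      rw [hcy]
      exact Subalgebra.add_mem _ (Subalgebra.mul_mem _ (hBT c hc) hyT) (hBT b hb)⟩
    have hNT := IHn (Subring.center F) F _ hchT
    have hPT := T_prime (K' := Subring.center F) D H hden hNT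
    have hDT := IH (Subring.center F) F _ hchT hPT
    intro a b hab
    rcases F_dom (K' := Subring.center F) D H hden hDT (ι a) (ι b) (by
      rw [← map_mul, hab, map_zero]) with h | h
    · left; exact H.inj (by rw [h, map_zero])
    · right; exact H.inj (by rw [h, map_zero])
  intro a ha b hb hab
  rcases goal ⟨a, ha⟩ ⟨b, hb⟩ (Subtype.ext hab) with h | h
  · exact Or.inl (congrArg Subtype.val h)
  · exact Or.inr (congrArg Subtype.val h)

end Pool.Agent.R693.O
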