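import Pool.Agent.R693.E.PieceA
import Pool.Agent.R693.E.PieceB

/-!
The chain theorem: over a field of characteristic zero, a prime ring with a chain of generators is a
domain.
-/

set_option autoImplicit false

namespace Pool.Agent.R693.O

theorem chain_main (n : ℕ) : ∀ (K : Type) [Field K] [CharZero K] (E : Type) [Ring E] [Algebra K E]
    (R : Subalgebra K E), Ch K n R → PrimeS R → DomS R := by
  induction n with
  | zero =>
    rintro K _ _ E _ _ R rfl ⟨h1, -⟩ a ha b hb hab
    have : Nontrivial E := ⟨1, 0, h1⟩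
    obtain ⟨r, rfl⟩ := Algebra.mem_bot.mp ha
    obtain ⟨s, rfl⟩ := Algebra.mem_bot.mp hb
    rw [← map_mul] at hab
    have h2 : r * s = 0 := by
      apply FaithfulSMul.algebraMap_injective K E
      rw [hab, map_zero]
    rcases mul_eq_zero.mp h2 with h | h
    · left; rw [h, map_zero]
    · right; rw [h, map_zero]
  | succ n ih =>
    intro K _ _ E _ _ R hR hP
    have hN := ch_noeth (n + 1) R hR
    obtain ⟨R₀, x, h₀, hx, hRx⟩ := hR
    have hN₀ := ch_noeth n R₀ h₀
    have hP₀ := prime_sub R₀ R x hx hRx hN₀.1 hN.2 hP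
    exact ore_step n (fun K' _ E' _ _ T hT => (ch_noeth n T hT).1) ih R₀ R x h₀ hx hRx hN₀.1 hN.1
      hN.2 hP (ih K E R₀ h₀ hP₀)

end Pool.Agent.R693.O
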