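import Mathlib

/-!
Piece OB, part 1: leading-coefficient calculus for a ring `A` generated by a left Ore domain `B`
and an element `X` with `[X, B] ⊆ B`; construction of the ring of fractions `F` of `A` at `B \ 0`.
-/

set_option autoImplicit false

namespace Pool.Agent.R693.O

/-- `Lw B X m z`: `z` is in `sum_{i<m} B X^i`. -/
def Lw {A : Type} [Ring A] (B : Subring A) (X : A) : ℕ → A → Prop
  | 0, z => z = 0
  | m + 1, z => ∃ b ∈ B, ∃ z', Lw B X m z' ∧ z = b * X ^ m + z'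

section Cal

variable {A : Type} [Ring A] {B : Subring A} {X : A}

lemma Lw_zero (m : ℕ) : Lw B X m 0 := by
  induction m with
  | zero => rfl
  | succ m ih => exact ⟨0, B.zero_mem, 0, ih, by simp⟩

lemma Lw_add (m : ℕ) : ∀ z w : A, Lw B X m z → Lw B X m w → Lw B X m (z + w) := by
  induction m with
  | zero => intro z w hz hw; change z = 0 at hz; change w = 0 at hw; change z + w = 0; simp [hz, hw]
  | succ m ih =>
    rintro z w ⟨b, hb, z', hz', rfl⟩ ⟨b2, hb2, w', hw', rfl⟩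
    exact ⟨b + b2, B.add_mem hb hb2, z' + w', ih _ _ hz' hw', by rw [add_mul]; abel⟩

lemma Lw_mulB (m : ℕ) : ∀ (b : A), b ∈ B → ∀ z : A, Lw B X m z → Lw B X m (b * z) := by
  induction m with
  | zero => intro b _ z hz; change z = 0 at hz; change b * z = 0; simp [hz]
  | succ m ih =>
    rintro b hb z ⟨c, hc, z', hz', rfl⟩
    exact ⟨b * c, B.mul_mem hb hc, b * z', ih b hb _ hz', by rw [mul_add, mul_assoc]⟩

lemma Lw_neg (m : ℕ) (z : A) (hz : Lw B X m z) : Lw B X m (-z) := by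
  have := Lw_mulB m (-1) (B.neg_mem B.one_mem) z hz
  simpa using this

lemma Lw_sub (m : ℕ) (z w : A) (hz : Lw B X m z) (hw : Lw B X m w) : Lw B X m (z - w) := by
  rw [sub_eq_add_neg]; exact Lw_add m _ _ hz (Lw_neg m _ hw)

lemma Lw_succ (m : ℕ) (z : A) (hz : Lw B X m z) : Lw B X (m + 1) z :=
  ⟨0, B.zero_mem, z, hz, by simp⟩

lemma Lw_mono {m n : ℕ} (h : m ≤ n) (z : A) (hz : Lw B X m z) : Lw B X n z := by
  induction n, h using Nat.le_induction with
  | base => exact hz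
  | succ n _ ih => exact Lw_succ n z ih

lemma Lw_pow (m : ℕ) (b : A) (hb : b ∈ B) : Lw B X (m + 1) (b * X ^ m) :=
  ⟨b, hb, 0, Lw_zero m, by simp⟩

lemma Lw_mulX (m : ℕ) : ∀ z : A, Lw B X m z → Lw B X (m + 1) (z * X) := by
  induction m with
  | zero => intro z hz; change z = 0 at hz; rw [hz, zero_mul]; exact Lw_zero 1
  | succ m ih =>
    rintro z ⟨c, hc, z', hz', rfl⟩
    exact ⟨c, hc, z' * X, ih _ hz', by rw [add_mul, mul_assoc, ← pow_succ]⟩

lemma Lw_Xmul (hX : ∀ b ∈ B, X * b - b * X ∈ B) (m : ℕ) :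
    ∀ z : A, Lw B X m z → Lw B X (m + 1) (X * z) := by
  induction m with
  | zero => intro z hz; change z = 0 at hz; rw [hz, mul_zero]; exact Lw_zero 1
  | succ m ih =>
    rintro z ⟨c, hc, z', hz', rfl⟩
    refine ⟨c, hc, (X * c - c * X) * X ^ m + X * z', ?_, ?_⟩
    · exact Lw_add _ _ _ (Lw_pow m _ (hX c hc)) (ih _ hz')
    · rw [pow_succ']; noncomm_ring

lemma Lw_Xpow_mul (hX : ∀ b ∈ B, X * b - b * X ∈ B) (k : ℕ) :
    ∀ (m : ℕ) (z : A), Lw B X m z → Lw B X (m + k) (X ^ k * z) := by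
  induction k with
  | zero => intro m z hz; simpa using hz
  | succ k ih =>
    intro m z hz
    rw [pow_succ, mul_assoc]
    have := ih (m + 1) (X * z) (Lw_Xmul hX m z hz)
    rwa [show m + 1 + k = m + (k + 1) by ring] at this

/-- The product of elements of finite degree has finite degree. -/
lemma Lw_mul (hX : ∀ b ∈ B, X * b - b * X ∈ B) (m : ℕ) :
    ∀ (k : ℕ) (z w : A), Lw B X m z → Lw B X k w → ∃ j, Lw B X j (z * w) := by
  induction m with
  | zero => intro k z w hz _; change z = 0 at hz; exact ⟨0, by rw [hz, zero_mul]; exact Lw_zero 0⟩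
  | succ m ih =>
    rintro k z w ⟨c, hc, z', hz', rfl⟩ hw
    obtain ⟨j, hj⟩ := ih k z' w hz' hw
    refine ⟨max (k + m) j, ?_⟩
    rw [add_mul, mul_assoc]
    exact Lw_add _ _ _ (Lw_mono (le_max_left _ _) _ (Lw_mulB _ c hc _ (Lw_Xpow_mul hX m k w hw)))
      (Lw_mono (le_max_right _ _) _ hj)

/-- `X^m b = b X^m + lower`. -/
lemma Xpow_comm (hX : ∀ b ∈ B, X * b - b * X ∈ B) (m : ℕ) (b : A) (hb : b ∈ B) :
    Lw B X m (X ^ m * b - b * X ^ m) := by
  induction m with
  | zero => simp; exact Lw_zero 0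
  | succ m ih =>
    have e : X ^ (m + 1) * b - b * X ^ (m + 1) =
        X * (X ^ m * b - b * X ^ m) + (X * b - b * X) * X ^ m := by
      rw [pow_succ' X m]; noncomm_ring
    rw [e]
    exact Lw_add _ _ _ (Lw_Xmul hX m _ ih) (Lw_pow m _ (hX b hb))

/-- `X^(m+1) b = b X^(m+1) + (m+1) [X,b] X^m + lower`. -/
lemma Xpow_comm2 (hX : ∀ b ∈ B, X * b - b * X ∈ B) (m : ℕ) (b : A) (hb : b ∈ B) :
    Lw B X m (X ^ (m + 1) * b - b * X ^ (m + 1) - ((m + 1 : ℕ) : A) * (X * b - b * X) * X ^ m) := by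
  induction m with
  | zero => simp; exact Lw_zero 0
  | succ m ih =>
    have e : X ^ (m + 1 + 1) * b - b * X ^ (m + 1 + 1)
          - ((m + 1 + 1 : ℕ) : A) * (X * b - b * X) * X ^ (m + 1) =
        X * (X ^ (m + 1) * b - b * X ^ (m + 1) - ((m + 1 : ℕ) : A) * (X * b - b * X) * X ^ m)
        + ((m + 1 : ℕ) : A) * (X * (X * b - b * X) - (X * b - b * X) * X) * X ^ m := by
      have hc : X * ((m + 1 : ℕ) : A) = ((m + 1 : ℕ) : A) * X := (Nat.cast_commute (m + 1) X).symm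
      have h1 : X * (((m + 1 : ℕ) : A) * (X * b - b * X) * X ^ m) =
          ((m + 1 : ℕ) : A) * (X * (X * b - b * X)) * X ^ m := by
        rw [← mul_assoc, ← mul_assoc, hc]; simp only [mul_assoc]
      rw [mul_sub X, h1, Nat.cast_succ (m + 1), pow_succ' X (m + 1), pow_succ' X m]
      noncomm_ring
    rw [e]
    refine Lw_add _ _ _ (Lw_Xmul hX m _ ih) ?_
    refine Lw_pow m _ (B.mul_mem (natCast_mem B _) (hX _ (hX b hb)))

lemma Lw_mulR (hX : ∀ b ∈ B, X * b - b * X ∈ B) (m : ℕ) :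
    ∀ (b : A), b ∈ B → ∀ z : A, Lw B X m z → Lw B X m (z * b) := by
  induction m with
  | zero => intro b _ z hz; change z = 0 at hz; change z * b = 0; simp [hz]
  | succ m ih =>
    rintro b hb z ⟨c, hc, z', hz', rfl⟩
    have e : (c * X ^ m + z') * b = (c * b) * X ^ m + (c * (X ^ m * b - b * X ^ m) + z' * b) := by
      noncomm_ring
    rw [e]
    exact ⟨c * b, B.mul_mem hc hb, _, Lw_add _ _ _ (Lw_mulB _ _ hc _ (Xpow_comm hX m b hb))
      (ih b hb _ hz'), rfl⟩

end Cal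

end Pool.Agent.R693.O
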