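import Pool.Agent.R693.E.B1

/-!
Piece OB, part 2: Ore condition, torsion-freeness, the ring of fractions.
-/

set_option autoImplicit false

namespace Pool.Agent.R693.O

/-- A left noetherian ring without zero divisors satisfies the left Ore condition. -/
theorem ore_of_noeth {S : Type} [Ring S] [IsNoetherianRing S]
    (hdom : ∀ a b : S, a * b = 0 → a = 0 ∨ b = 0) (a c : S) (hc : c ≠ 0) :
    ∃ u v : S, u ≠ 0 ∧ u * a = v * c := by
  classical
  have h1 : (1 : S) ≠ 0 := fun h => hc (by rw [← one_mul c, h, zero_mul])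
  by_cases ha : a = 0
  · exact ⟨1, 0, h1, by simp [ha]⟩
  by_contra hcon
  push Not at hcon
  -- the left ideals I_m = sum_{i<m} S a c^i
  let I : ℕ → Ideal S := fun m => Ideal.span ((fun i : ℕ => a * c ^ i) '' Set.Iio m)
  have hmono : Monotone I := fun m n hmn =>
    Ideal.span_mono (Set.image_mono (Set.Iio_subset_Iio hmn))
  obtain ⟨m, hm⟩ := (monotone_stabilizes_iff_noetherian (R := S) (M := S)).2 inferInstance
    ⟨I, hmono⟩
  have hm1 : I m = I (m + 1) := hm (m + 1) (Nat.le_succ m)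
  have hmem : a * c ^ m ∈ I m := by
    rw [hm1]
    exact Ideal.subset_span ⟨m, Set.mem_Iio.2 (Nat.lt_succ_self m), rfl⟩
  -- descend
  have key : ∀ m : ℕ, a * c ^ m ∈ I m → False := by
    intro m
    induction m with
    | zero =>
      intro h
      have : I 0 = ⊥ := by
        change Ideal.span ((fun i : ℕ => a * c ^ i) '' Set.Iio 0) = ⊥
        rw [show Set.Iio (0 : ℕ) = ∅ by ext x; simp, Set.image_empty]
        exact Ideal.span_empty
      rw [this] at h
      have h2 : a * c ^ 0 = 0 := h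
      rw [pow_zero, mul_one] at h2
      exact ha h2
    | succ m ih =>
      intro h
      -- elements of I (m+1) are b a + w c with w in I m
      have hdec : ∀ z ∈ I (m + 1), ∃ b : S, ∃ w ∈ I m, z = b * a + w * c := by
        intro z hz
        refine Submodule.span_induction ?_ ?_ ?_ ?_ hz
        · rintro _ ⟨i, hi, rfl⟩
          rcases Nat.eq_zero_or_pos i with rfl | hi0
          · exact ⟨1, 0, (I m).zero_mem, by simp⟩
          · refine ⟨0, a * c ^ (i - 1), Ideal.subset_span ⟨i - 1, ?_, rfl⟩, ?_⟩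
            · simp only [Set.mem_Iio] at hi ⊢; omega
            · rw [zero_mul, zero_add, mul_assoc, ← pow_succ, Nat.sub_add_cancel hi0]
        · exact ⟨0, 0, (I m).zero_mem, by simp⟩
        · rintro x y _ _ ⟨b, w, hw, rfl⟩ ⟨b', w', hw', rfl⟩
          exact ⟨b + b', w + w', (I m).add_mem hw hw', by noncomm_ring⟩
        · rintro r x _ ⟨b, w, hw, rfl⟩
          exact ⟨r * b, r * w, (I m).mul_mem_left r hw, by simp [smul_eq_mul, mul_add, mul_assoc]⟩
      obtain ⟨b, w, hw, hb⟩ := hdec _ h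
      have hb0 : b = 0 := by
        by_contra hb0
        refine hcon b (a * c ^ m - w) hb0 ?_
        rw [sub_mul, mul_assoc, ← pow_succ, hb]; abel
      rw [hb0, zero_mul, zero_add, pow_succ, ← mul_assoc] at hb
      have : (a * c ^ m - w) * c = 0 := by rw [sub_mul, hb, sub_self]
      rcases hdom _ _ this with h0 | h0
      · apply ih
        rw [sub_eq_zero] at h0
        rw [h0]; exact hw
      · exact hc h0
  exact key m hmem

section Main

variable {A : Type} [Ring A] {B : Subring A} {X : A}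

/-- Standing data: `A` is generated by the left Ore domain `B` and `X`, `[X, B] ⊆ B`. -/
structure Dat (B : Subring A) (X : A) : Prop where
  hX : ∀ b ∈ B, X * b - b * X ∈ B
  gen : ∀ a : A, ∃ m, Lw B X m a
  dom : ∀ a ∈ B, ∀ b ∈ B, a * b = 0 → a = 0 ∨ b = 0
  ore : ∀ a ∈ B, ∀ c ∈ B, c ≠ 0 → ∃ u ∈ B, u ≠ 0 ∧ ∃ v ∈ B, u * a = v * c
  one : (1 : A) ≠ 0
  prime : ∀ a b : A, (∀ r : A, a * r * b = 0) → a = 0 ∨ b = 0

/-- `A` is left torsion-free over `B`. -/
theorem left_tf (D : Dat B X) (hNr : IsNoetherianRing Aᵐᵒᵖ) (c : A) (hc : c ∈ B) (hc0 : c ≠ 0)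
    (s : A) (hs : c * s = 0) : s = 0 := by
  classical
  -- right annihilators as left ideals of the opposite ring
  let Ann : A → Ideal Aᵐᵒᵖ := fun c =>
    { carrier := {s | c * s.unop = 0}
      add_mem' := by
        intro a b ha hb
        simp only [Set.mem_ofPred_eq, MulOpposite.unop_add, mul_add] at *
        rw [ha, hb, add_zero]
      zero_mem' := by simp
      smul_mem' := by
        intro r s hs
        simp only [Set.mem_ofPred_eq, smul_eq_mul, MulOpposite.unop_mul] at *
        rw [← mul_assoc, hs, zero_mul] }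
  have hAnn : ∀ c s, s ∈ Ann c ↔ c * s.unop = 0 := fun c s => Iff.rfl
  let 𝒮 : Set (Ideal Aᵐᵒᵖ) := {J | ∃ c ∈ B, c ≠ 0 ∧ J = Ann c}
  have hne : 𝒮.Nonempty := ⟨Ann 1, 1, B.one_mem, D.one, rfl⟩
  obtain ⟨J, ⟨c0, hc0B, hc00, rfl⟩, hmax⟩ :=
    (set_has_maximal_iff_noetherian (R := Aᵐᵒᵖ) (M := Aᵐᵒᵖ)).2 hNr 𝒮 hne
  -- annihilators of u * c0 with u ≠ 0
  have hmax2 : ∀ u ∈ B, u ≠ 0 → ∀ s : A, u * c0 * s = 0 → c0 * s = 0 := by
    intro u hu hu0 s hs
    have hle : Ann c0 ≤ Ann (u * c0) := by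
      intro t ht
      rw [hAnn] at ht ⊢
      rw [mul_assoc, ht, mul_zero]
    have hn0 : u * c0 ≠ 0 := by
      intro h
      rcases D.dom u hu c0 hc0B h with h | h
      · exact hu0 h
      · exact hc00 h
    have hnlt := hmax (Ann (u * c0)) ⟨u * c0, B.mul_mem hu hc0B, hn0, rfl⟩
    have heq : Ann c0 = Ann (u * c0) := by
      by_contra hne
      exact hnlt (lt_of_le_of_ne hle hne)
    have : MulOpposite.op s ∈ Ann c0 := by
      rw [heq, hAnn]; simpa using hs
    simpa [hAnn] using this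
  -- any torsion element is killed by c0
  have htor : ∀ c ∈ B, c ≠ 0 → ∀ s : A, c * s = 0 → c0 * s = 0 := by
    intro c hc hcn s hs
    obtain ⟨u, hu, hu0, v, hv, huv⟩ := D.ore c0 hc0B c hc hcn
    apply hmax2 u hu hu0
    rw [huv, mul_assoc, hs, mul_zero]
  -- the torsion elements are stable under B and X
  have hB : ∀ b ∈ B, ∀ s : A, c0 * s = 0 → c0 * (b * s) = 0 := by
    intro b hb s hs
    obtain ⟨u, hu, hu0, v, hv, huv⟩ := D.ore b hb c0 hc0B hc00
    apply htor u hu hu0
    rw [← mul_assoc, huv, mul_assoc, hs, mul_zero]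
  have hXs : ∀ s : A, c0 * s = 0 → c0 * (X * s) = 0 := by
    intro s hs
    obtain ⟨u, hu, hu0, v, hv, huv⟩ := D.ore _ (D.hX c0 hc0B) c0 hc0B hc00
    apply hmax2 u hu hu0
    have e : u * c0 * (X * s) = u * (X * (c0 * s)) - u * (X * c0 - c0 * X) * s := by noncomm_ring
    rw [e, huv, mul_assoc v, hs]; simp
  have hXp : ∀ (i : ℕ) (s : A), c0 * s = 0 → c0 * (X ^ i * s) = 0 := by
    intro i
    induction i with
    | zero => intro s hs; simpa using hs
    | succ i ih => intro s hs; rw [pow_succ', mul_assoc]; exact hXs _ (ih s hs)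
  have hall : ∀ s : A, c0 * s = 0 → ∀ r : A, c0 * (r * s) = 0 := by
    intro s hs r
    obtain ⟨m, hm⟩ := D.gen r
    clear hc0 hc
    induction m generalizing r with
    | zero => change r = 0 at hm; rw [hm]; simp
    | succ m ih =>
      obtain ⟨b, hb, z, hz, rfl⟩ := hm
      rw [add_mul, mul_add, ih z hz, add_zero, mul_assoc]
      exact hB b hb _ (hXp m s hs)
  have h0 := htor c hc hc0 s hs
  rcases D.prime c0 s (fun r => by rw [mul_assoc]; exact hall s h0 r) with h | h
  · exact absurd h hc00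
  · exact h

/-- if no power of `X` is algebraic then `A` is a domain. -/
theorem dom_of_free (D : Dat B X)
    (hfree : ∀ (m : ℕ) (c : A), c ∈ B → Lw B X m (c * X ^ m) → c = 0) :
    ∀ a b : A, a * b = 0 → a = 0 ∨ b = 0 := by
  -- normal form
  have nf : ∀ a : A, a ≠ 0 → ∃ (m : ℕ) (b : A) (z : A), b ∈ B ∧ b ≠ 0 ∧ Lw B X m z ∧
      a = b * X ^ m + z := by
    intro a ha
    obtain ⟨m, hm⟩ := D.gen a
    induction m with
    | zero => exact absurd hm ha
    | succ m ih =>
      obtain ⟨b, hb, z, hz, rfl⟩ := hm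
      by_cases hb0 : b = 0
      · apply ih
        rw [hb0, zero_mul, zero_add]; exact hz
      · exact ⟨m, b, z, hb, hb0, hz, rfl⟩
  intro a b hab
  by_contra hcon
  push Not at hcon
  obtain ⟨m, c, z, hc, hc0, hz, rfl⟩ := nf a hcon.1
  obtain ⟨k, d, w, hd, hd0, hw, rfl⟩ := nf b hcon.2
  have hcd : c * d ≠ 0 := by
    intro h
    rcases D.dom c hc d hd h with h | h
    · exact hc0 h
    · exact hd0 h
  apply hcd
  apply hfree (k + m) (c * d) (B.mul_mem hc hd)
  -- multiplying a lower term z by Y of degree < j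
  have hlow : ∀ (m j : ℕ) (z y : A), Lw B X m z → Lw B X (j + 1) y → Lw B X (j + m) (z * y) := by
    intro m
    induction m with
    | zero => intro j z y hz _; change z = 0 at hz; rw [hz, zero_mul]; exact Lw_zero _
    | succ m ih =>
      rintro j z y ⟨b, hb, z', hz', rfl⟩ hy
      rw [add_mul, mul_assoc]
      refine Lw_add _ _ _ (Lw_mulB _ b hb _ ?_) (Lw_succ _ _ (ih j z' y hz' hy))
      have := Lw_Xpow_mul D.hX m (j + 1) y hy
      rwa [show j + 1 + m = j + (m + 1) by ring] at this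
  have e : c * d * X ^ (k + m) =
      - (c * (X ^ m * d - d * X ^ m) * X ^ k + c * (X ^ m * w) + z * (d * X ^ k + w)) := by
    have h1 : (c * X ^ m + z) * (d * X ^ k + w) = c * d * X ^ (k + m) +
        (c * (X ^ m * d - d * X ^ m) * X ^ k + c * (X ^ m * w) + z * (d * X ^ k + w)) := by
      rw [add_comm k m, pow_add]; noncomm_ring
    rw [hab] at h1
    exact eq_neg_of_add_eq_zero_left h1.symm
  rw [e]
  have hmulXp : ∀ (k m : ℕ) (z : A), Lw B X m z → Lw B X (k + m) (z * X ^ k) := by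
    intro k
    induction k with
    | zero => intro m z hz; simpa using hz
    | succ k ih =>
      intro m z hz
      rw [pow_succ, ← mul_assoc]
      have := Lw_mulX _ _ (ih m z hz)
      rwa [show k + m + 1 = k + 1 + m by ring] at this
  refine Lw_neg _ _ (Lw_add _ _ _ (Lw_add _ _ _ ?_ ?_) ?_)
  · exact hmulXp k m _ (Lw_mulB _ c hc _ (Xpow_comm D.hX m d hd))
  · exact Lw_mulB _ c hc _ (Lw_Xpow_mul D.hX m k w hw)
  · exact hlow m k z _ hz ⟨d, hd, w, hw, rfl⟩

end Main

end Pool.Agent.R693.O
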