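import Pool.Agent.R693.E.B2

/-!
Piece OB, part 3: the algebraic case; the ring of fractions `F` of `A` at `B \ 0`.
-/

set_option autoImplicit false

namespace Pool.Agent.R693.O

variable {A : Type} [Ring A] {B : Subring A} {X : A}

/-- `n` is the minimal degree of a relation with non-zero leading coefficient. -/
structure AlgDeg (B : Subring A) (X : A) (n : ℕ) : Prop where
  rel : ∃ c ∈ B, c ≠ 0 ∧ Lw B X n (c * X ^ n)
  min : ∀ m < n, ∀ c ∈ B, Lw B X m (c * X ^ m) → c = 0

lemma exists_algDeg (h : ¬ ∀ (m : ℕ) (c : A), c ∈ B → Lw B X m (c * X ^ m) → c = 0) :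
    ∃ n, AlgDeg B X n := by
  classical
  push Not at h
  obtain ⟨m, c, hc, hL, hc0⟩ := h
  have hex : ∃ m, ∃ c ∈ B, c ≠ 0 ∧ Lw B X m (c * X ^ m) := ⟨m, c, hc, hc0, hL⟩
  refine ⟨Nat.find hex, Nat.find_spec hex, ?_⟩
  intro k hk c hc hL
  by_contra hc0
  exact Nat.find_min hex hk ⟨c, hc, hc0, hL⟩

/-- every element can be brought to degree `< n` by a left factor. -/
lemma lower (D : Dat B X) {n : ℕ} (N : AlgDeg B X n) (y : A) :
    ∃ u ∈ B, u ≠ 0 ∧ Lw B X n (u * y) := by
  obtain ⟨c, hc, hc0, hrel⟩ := N.rel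
  obtain ⟨m, hm⟩ := D.gen y
  -- multiplication by powers of X on the right
  have hmulXp : ∀ (k m : ℕ) (z : A), Lw B X m z → Lw B X (k + m) (z * X ^ k) := by
    intro k
    induction k with
    | zero => intro m z hz; simpa using hz
    | succ k ih =>
      intro m z hz
      rw [pow_succ, ← mul_assoc]
      have := Lw_mulX _ _ (ih m z hz)
      rwa [show k + m + 1 = k + 1 + m by ring] at this
  induction m generalizing y with
  | zero =>
    change y = 0 at hm
    exact ⟨1, B.one_mem, D.one, by rw [hm, mul_zero]; exact Lw_zero _⟩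
  | succ m ih =>
    by_cases hmn : m + 1 ≤ n
    · exact ⟨1, B.one_mem, D.one, by rw [one_mul]; exact Lw_mono hmn _ hm⟩
    · obtain ⟨b, hb, z, hz, rfl⟩ := hm
      obtain ⟨u, hu, hu0, v, hv, huv⟩ := D.ore b hb c hc hc0
      have hnm : n ≤ m := by omega
      have hL : Lw B X m (u * (b * X ^ m + z)) := by
        have e : u * (b * X ^ m + z) = v * ((c * X ^ n) * X ^ (m - n)) + u * z := by
          rw [mul_assoc c, ← pow_add, Nat.add_sub_cancel' hnm, mul_add, ← mul_assoc, huv,
            mul_assoc]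
        rw [e]
        refine Lw_add _ _ _ (Lw_mulB _ v hv _ ?_) (Lw_mulB _ u hu _ hz)
        have := hmulXp (m - n) n _ hrel
        rwa [Nat.sub_add_cancel hnm] at this
      obtain ⟨w, hw, hw0, hw2⟩ := ih _ hL
      refine ⟨w * u, B.mul_mem hw hu, ?_, by rw [mul_assoc]; exact hw2⟩
      intro h
      rcases D.dom w hw u hu h with h | h
      · exact hw0 h
      · exact hu0 h

/-- right torsion-freeness. -/
lemma right_tf (D : Dat B X) {n : ℕ} (N : AlgDeg B X n) (hNr : IsNoetherianRing Aᵐᵒᵖ)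
    (c : A) (hc : c ∈ B) (hc0 : c ≠ 0) (y : A) (hy : y * c = 0) : y = 0 := by
  have key : ∀ m ≤ n, ∀ z : A, Lw B X m z → z * c = 0 → z = 0 := by
    intro m
    induction m with
    | zero => intro _ z hz _; exact hz
    | succ m ih =>
      rintro hm z ⟨b, hb, z', hz', rfl⟩ h
      have hbc : b * c = 0 := by
        apply N.min m (by omega) _ (B.mul_mem hb hc)
        have e : b * c * X ^ m = - (b * (X ^ m * c - c * X ^ m) + z' * c) := by
          have : (b * X ^ m + z') * c = b * c * X ^ m + (b * (X ^ m * c - c * X ^ m) + z' * c) := by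
            noncomm_ring
          rw [h] at this
          exact eq_neg_of_add_eq_zero_left this.symm
        rw [e]
        exact Lw_neg _ _ (Lw_add _ _ _ (Lw_mulB _ _ hb _ (Xpow_comm D.hX m c hc))
          (Lw_mulR D.hX m c hc _ hz'))
      rcases D.dom b hb c hc hbc with h0 | h0
      · rw [h0, zero_mul, zero_add] at h ⊢
        exact ih (by omega) z' hz' h
      · exact absurd h0 hc0
  obtain ⟨u, hu, hu0, hL⟩ := lower D N y
  have : u * y = 0 := key n le_rfl _ hL (by rw [mul_assoc, hy, mul_zero])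
  exact left_tf D hNr u hu hu0 y this

/-- left Ore condition of `B \ 0` in `A`. -/
lemma ore_A (D : Dat B X) (c : A) (hc : c ∈ B) (hc0 : c ≠ 0) (y : A) :
    ∃ u ∈ B, u ≠ 0 ∧ ∃ y' : A, u * y = y' * c := by
  obtain ⟨m, hm⟩ := D.gen y
  induction m generalizing y with
  | zero => change y = 0 at hm; exact ⟨1, B.one_mem, D.one, 0, by rw [hm]; simp⟩
  | succ m ih =>
    obtain ⟨a, ha, z, hz, rfl⟩ := hm
    obtain ⟨u, hu, hu0, v, hv, huv⟩ := D.ore a ha c hc hc0
    have hL : Lw B X m (u * z - v * (X ^ m * c - c * X ^ m)) :=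
      Lw_sub _ _ _ (Lw_mulB _ u hu _ hz) (Lw_mulB _ v hv _ (Xpow_comm D.hX m c hc))
    obtain ⟨w, hw, hw0, y', hy'⟩ := ih _ hL
    refine ⟨w * u, B.mul_mem hw hu, ?_, w * v * X ^ m + y', ?_⟩
    · intro h
      rcases D.dom w hw u hu h with h | h
      · exact hw0 h
      · exact hu0 h
    · rw [add_mul, ← hy']
      have : u * (a * X ^ m + z) = v * c * X ^ m + u * z := by
        rw [mul_add, ← mul_assoc, huv]
      rw [mul_assoc w u, this]
      noncomm_ring

/-- `F` is the ring of left fractions of `A` at `B \ 0`. -/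
structure IsFrac (B : Subring A) {F : Type} [Ring F] (ι : A →+* F) : Prop where
  inj : Function.Injective ι
  unit : ∀ c ∈ B, c ≠ 0 → IsUnit (ι c)
  surj : ∀ e : F, ∃ c ∈ B, c ≠ 0 ∧ ∃ a : A, ι c * e = ι a

open OreLocalization in
theorem exists_frac (D : Dat B X) {n : ℕ} (N : AlgDeg B X n) (hNr : IsNoetherianRing Aᵐᵒᵖ) :
    ∃ (F : Type) (_ : Ring F) (ι : A →+* F), IsFrac B ι := by
  classical
  let C : Submonoid A :=
    { carrier := {c | c ∈ B ∧ c ≠ 0}
      mul_mem' := by
        rintro a b ⟨ha, ha0⟩ ⟨hb, hb0⟩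
        refine ⟨B.mul_mem ha hb, ?_⟩
        intro h
        rcases D.dom a ha b hb h with h | h
        · exact ha0 h
        · exact hb0 h
      one_mem' := ⟨B.one_mem, D.one⟩ }
  have hCm : ∀ c, c ∈ C ↔ c ∈ B ∧ c ≠ 0 := fun c => Iff.rfl
  have hore : ∀ (r : A) (s : C), ∃ (u : C) (y' : A), (u : A) * r = y' * s := by
    intro r s
    obtain ⟨u, hu, hu0, y', hy'⟩ := ore_A D s.1 s.2.1 s.2.2 r
    exact ⟨⟨u, hu, hu0⟩, y', hy'⟩
  let _ : OreSet C :=
    { ore_right_cancel := by
        intro r₁ r₂ s h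
        refine ⟨1, ?_⟩
        have h2 : (r₁ - r₂) * s = 0 := by rw [sub_mul, h, sub_self]
        have := right_tf D N hNr s.1 s.2.1 s.2.2 _ h2
        rw [sub_eq_zero] at this
        rw [this]
      oreNum := fun r s => (hore r s).choose_spec.choose
      oreDenom := fun r s => (hore r s).choose
      ore_eq := fun r s => (hore r s).choose_spec.choose_spec }
  have hS : C ≤ nonZeroDivisorsLeft A := by
    intro c hc
    rw [mem_nonZeroDivisorsLeft_iff]
    intro a ha
    exact left_tf D hNr c hc.1 hc.2 a ha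
  refine ⟨OreLocalization C A, inferInstance, OreLocalization.numeratorRingHom, ?_, ?_, ?_⟩
  · intro a b hab
    exact OreLocalization.numeratorHom_inj hS hab
  · intro c hc hc0
    exact OreLocalization.numerator_isUnit (⟨c, hc, hc0⟩ : C)
  · intro e
    induction e using OreLocalization.ind with
    | _ r s =>
      refine ⟨s.1, s.2.1, s.2.2, r, ?_⟩
      change (s.1 /ₒ (1 : C)) * (r /ₒ s) = r /ₒ (1 : C)
      exact OreLocalization.mul_cancel

end Pool.Agent.R693.O
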