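import Pool.Agent.R693.E.B3

/-!
Piece OB, part 4: the centre of the ring of fractions.
-/

set_option autoImplicit false

namespace Pool.Agent.R693.O

variable {A : Type} [Ring A] {B : Subring A} {X : A}

lemma Lw_commX (hX : ∀ b ∈ B, X * b - b * X ∈ B) (m : ℕ) :
    ∀ z : A, Lw B X m z → Lw B X m (X * z - z * X) := by
  induction m with
  | zero => intro z hz; change z = 0 at hz; rw [hz]; simp; exact Lw_zero 0
  | succ m ih =>
    rintro z ⟨c, hc, z', hz', rfl⟩
    refine ⟨X * c - c * X, hX c hc, X * z' - z' * X, ih _ hz', ?_⟩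
    have h : X ^ m * X = X * X ^ m := by rw [← pow_succ, pow_succ']
    generalize X ^ m = P at *
    linear_combination (norm := noncomm_ring) -(c * h)

lemma coeff_rel (D : Dat B X) {k : ℕ} (N : AlgDeg B X (k + 1)) {c b z' : A} (hc : c ∈ B)
    (hb : b ∈ B) (hz : Lw B X k z') (hrel : c * X ^ (k + 1) = b * X ^ k + z')
    {r u v : A} (hr : r ∈ B) (hu : u ∈ B) (hv : v ∈ B) (huv : u * (c * r) = v * c) :
    ((k + 1 : ℕ) : A) * (u * c * (X * r - r * X)) - u * b * r + v * b = 0 := by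
  have hδ := D.hX r hr
  apply N.min k (Nat.lt_succ_self k)
  · exact B.add_mem (B.sub_mem (B.mul_mem (natCast_mem B _) (B.mul_mem (B.mul_mem hu hc) hδ))
      (B.mul_mem (B.mul_mem hu hb) hr)) (B.mul_mem hv hb)
  · have L1 := Xpow_comm2 D.hX k r hr
    have L2 := Xpow_comm D.hX k r hr
    have h1 : u * (c * X ^ (k + 1)) * r = u * (b * X ^ k + z') * r := by rw [hrel]
    have h2 : v * (c * X ^ (k + 1)) = v * (b * X ^ k + z') := by rw [hrel]
    have h3 : u * (c * r) * X ^ (k + 1) = v * c * X ^ (k + 1) := by rw [huv]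
    have h4 : u * c * (((k + 1 : ℕ) : A) * (X * r - r * X) * X ^ k) =
        ((k + 1 : ℕ) : A) * (u * c * (X * r - r * X)) * X ^ k := by
      rw [← mul_assoc (u * c), ← mul_assoc (u * c), ← (Nat.cast_commute (k + 1) (u * c)).eq]
      simp only [mul_assoc]
    have e : (((k + 1 : ℕ) : A) * (u * c * (X * r - r * X)) - u * b * r + v * b) * X ^ k =
        u * b * (X ^ k * r - r * X ^ k) + u * (z' * r) - v * z' - u * c * (X ^ (k + 1) * r
          - r * X ^ (k + 1) - ((k + 1 : ℕ) : A) * (X * r - r * X) * X ^ k) := by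
      rw [mul_sub (u * c) (X ^ (k + 1) * r - r * X ^ (k + 1)), h4]
      generalize X ^ (k + 1) = P at *
      generalize X ^ k = Q at *
      generalize ((k + 1 : ℕ) : A) * (u * c * (X * r - r * X)) = M at *
      linear_combination (norm := noncomm_ring) h1 - h2 - h3
    rw [e]
    refine Lw_sub _ _ _ (Lw_sub _ _ _ (Lw_add _ _ _ ?_ ?_) ?_) ?_
    · exact Lw_mulB _ _ (B.mul_mem hu hb) _ L2
    · exact Lw_mulB _ _ hu _ (Lw_mulR D.hX k r hr _ hz)
    · exact Lw_mulB _ _ hv _ hz
    · exact Lw_mulB _ _ (B.mul_mem hu hc) _ L1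

lemma coeff_rel2 (D : Dat B X) {k : ℕ} (N : AlgDeg B X (k + 1)) {c b z' : A}
    (hb : b ∈ B) (hz : Lw B X k z') (hrel : c * X ^ (k + 1) = b * X ^ k + z')
    {u v : A} (hu : u ∈ B) (hv : v ∈ B) (huv : u * (X * c - c * X) = v * c) :
    v * b - u * (X * b - b * X) = 0 := by
  apply N.min k (Nat.lt_succ_self k)
  · exact B.sub_mem (B.mul_mem hv hb) (B.mul_mem hu (D.hX b hb))
  · have h1 : u * (X * (c * X ^ (k + 1)) - (c * X ^ (k + 1)) * X) =
        u * (X * (b * X ^ k + z') - (b * X ^ k + z') * X) := by rw [hrel]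
    have h2 : v * (c * X ^ (k + 1)) = v * (b * X ^ k + z') := by rw [hrel]
    have h3 : u * (X * c - c * X) * X ^ (k + 1) = v * c * X ^ (k + 1) := by rw [huv]
    have h5 : X ^ k * X = X * X ^ k := by rw [← pow_succ, pow_succ']
    have h6 : X ^ (k + 1) * X = X * X ^ (k + 1) := by rw [← pow_succ, pow_succ']
    have e : (v * b - u * (X * b - b * X)) * X ^ k = u * (X * z' - z' * X) - v * z' := by
      generalize X ^ (k + 1) = P at *
      generalize X ^ k = Q at *
      linear_combination (norm := noncomm_ring) h1 - h2 - h3 + u * c * h6 - u * b * h5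
    rw [e]
    exact Lw_sub _ _ _ (Lw_mulB _ _ hu _ (Lw_commX D.hX k z' hz)) (Lw_mulB _ _ hv _ hz)

variable {F : Type} [Ring F] {ι : A →+* F}

lemma IsFrac.cancel (H : IsFrac B ι) {c : A} (hc : c ∈ B) (hc0 : c ≠ 0) {e e' : F}
    (h : ι c * e = ι c * e') : e = e' := (H.unit c hc hc0).mul_left_cancel h

lemma IsFrac.cancel0 (H : IsFrac B ι) {c : A} (hc : c ∈ B) (hc0 : c ≠ 0) {e : F}
    (h : ι c * e = 0) : e = 0 := H.cancel hc hc0 (by rw [h, mul_zero])

lemma IsFrac.prime (H : IsFrac B ι) (D : Dat B X) (e1 e2 : F)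
    (h : ∀ f, e1 * f * e2 = 0) : e1 = 0 ∨ e2 = 0 := by
  obtain ⟨c1, hc1, hc10, a1, h1⟩ := H.surj e1
  obtain ⟨c2, hc2, hc20, a2, h2⟩ := H.surj e2
  rcases D.prime a1 a2 (fun r => by
    apply H.inj
    rw [map_mul, map_mul, ← h1, ← h2, map_zero]
    have := h (ι r * ι c2)
    calc ι c1 * e1 * ι r * (ι c2 * e2) = ι c1 * (e1 * (ι r * ι c2) * e2) := by noncomm_ring
      _ = 0 := by rw [this, mul_zero]) with h0 | h0
  · left
    exact H.cancel0 hc1 hc10 (by rw [h1, h0, map_zero])
  · right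
    exact H.cancel0 hc2 hc20 (by rw [h2, h0, map_zero])

/-- an element commuting with `ι B` and `ι X` is central. -/
lemma IsFrac.central (H : IsFrac B ι) (D : Dat B X) (y : F) (hB : ∀ b ∈ B, y * ι b = ι b * y)
    (hXy : y * ι X = ι X * y) (f : F) : y * f = f * y := by
  have hXp : ∀ m : ℕ, y * ι (X ^ m) = ι (X ^ m) * y := by
    intro m
    induction m with
    | zero => simp
    | succ m ih => rw [pow_succ, map_mul, ← mul_assoc, ih, mul_assoc, hXy, mul_assoc]
  have hA : ∀ a : A, y * ι a = ι a * y := by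
    intro a
    obtain ⟨m, hm⟩ := D.gen a
    induction m generalizing a with
    | zero => change a = 0 at hm; rw [hm]; simp
    | succ m ih =>
      obtain ⟨b, hb, z, hz, rfl⟩ := hm
      rw [map_add, mul_add, add_mul, ih z hz, map_mul, ← mul_assoc, hB b hb, mul_assoc, hXp m,
        mul_assoc]
  obtain ⟨c, hc, hc0, a, h⟩ := H.surj f
  apply H.cancel hc hc0
  rw [← mul_assoc, ← hB c hc, mul_assoc, h, hA a, ← h, mul_assoc]

/-- the central element `y = n X - c^{-1} b`. -/
lemma exists_central (H : IsFrac B ι) (D : Dat B X) {n : ℕ} (N : AlgDeg B X n)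
    (hchar : ∀ n : ℕ, n ≠ 0 → ∀ a : A, (n : A) * a = 0 → a = 0) :
    ∃ c ∈ B, ∃ c' ∈ B, ∃ b ∈ B, c' ≠ 0 ∧ ∃ y : F, (∀ f, y * f = f * y) ∧
      ι c' * ι X = ι c * y + ι b := by
  obtain ⟨c, hc, hc0, hrel⟩ := N.rel
  obtain ⟨k, rfl⟩ : ∃ k, n = k + 1 := by
    rcases n with _ | k
    · exfalso
      apply hc0
      change c * X ^ 0 = 0 at hrel
      simpa using hrel
    · exact ⟨k, rfl⟩
  obtain ⟨b, hb, z', hz', hrel⟩ := hrel
  obtain ⟨⟨_, ci, hci1, hci2⟩, rfl⟩ := H.unit c hc hc0
  set nn : F := ((k + 1 : ℕ) : F) with hnn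
  have hn : ∀ t : F, nn * t = t * nn := fun t => (Nat.cast_commute (k + 1) t).eq
  have e1 : ∀ t, ι c * (ci * t) = t := fun t => by rw [← mul_assoc, hci1, one_mul]
  let y : F := nn * ι X - ci * ι b
  have hc'0 : ((k + 1 : ℕ) : A) * c ≠ 0 := fun h => hc0 (hchar (k + 1) (Nat.succ_ne_zero k) c h)
  have hyB : ∀ r ∈ B, y * ι r = ι r * y := by
    intro r hr
    obtain ⟨u, hu, hu0, v, hv, huv⟩ := D.ore (c * r) (B.mul_mem hc hr) c hc hc0
    have hrel' := coeff_rel D N hc hb hz' hrel hr hu hv huv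
    have huc : u * c ≠ 0 := by
      intro h
      rcases D.dom u hu c hc h with h | h
      · exact hu0 h
      · exact hc0 h
    rw [← sub_eq_zero]
    apply H.cancel0 (B.mul_mem hu hc) huc
    rw [map_mul]
    have e2 : ι u * (ι c * ι r) = ι v * ι c := by rw [← map_mul, ← map_mul, huv, map_mul]
    have e3 : ι u * ι c * (y * ι r - ι r * y) =
        nn * (ι u * ι c * (ι X * ι r - ι r * ι X)) - ι u * (ι c * (ci * (ι b * ι r)))
          + (ι u * (ι c * ι r)) * (ci * ι b) := by
      have e4 : ι u * ι c * ι r * (nn * ι X) = nn * (ι u * ι c * ι r * ι X) := by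
        rw [← mul_assoc (ι u * ι c * ι r), ← hn]; simp only [mul_assoc]
      have e5 : ι u * ι c * (nn * ι X * ι r) = nn * (ι u * ι c * ι X * ι r) := by
        rw [mul_assoc nn, ← mul_assoc (ι u * ι c), ← hn]; simp only [mul_assoc]
      change ι u * ι c * ((nn * ι X - ci * ι b) * ι r - ι r * (nn * ι X - ci * ι b)) = _
      linear_combination (norm := noncomm_ring) e5 - e4
    rw [e3, e1, e2, mul_assoc (ι v), e1]
    have := congrArg ι hrel'
    rw [map_zero] at this
    rw [← this]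
    simp only [map_add, map_sub, map_mul, map_natCast, ← hnn, mul_assoc]
  have hyX : y * ι X = ι X * y := by
    obtain ⟨u, hu, hu0, v, hv, huv⟩ := D.ore (X * c - c * X) (D.hX c hc) c hc hc0
    have hrel' := coeff_rel2 D N hb hz' hrel hu hv huv
    have huc : u * c ≠ 0 := by
      intro h
      rcases D.dom u hu c hc h with h | h
      · exact hu0 h
      · exact hc0 h
    rw [← sub_eq_zero]
    apply H.cancel0 (B.mul_mem hu hc) huc
    rw [map_mul]
    have e2 : ι u * (ι X * ι c - ι c * ι X) = ι v * ι c := by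
      rw [← map_mul, ← map_mul, ← map_sub, ← map_mul, huv, map_mul]
    have e3 : ι u * ι c * (y * ι X - ι X * y) =
        - (ι u * (ι c * (ci * (ι b * ι X)))) + ι u * ι X * (ι c * (ci * ι b))
         - ι u * (ι X * ι c - ι c * ι X) * (ci * ι b) := by
      have e5 : ι X * (nn * ι X) = nn * ι X * ι X := by
        rw [← mul_assoc, ← hn]
      change ι u * ι c * ((nn * ι X - ci * ι b) * ι X - ι X * (nn * ι X - ci * ι b)) = _
      linear_combination (norm := noncomm_ring) -(ι u * ι c * e5)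
    rw [e3, e1, e1, e2, mul_assoc (ι v), e1]
    have := congrArg ι hrel'
    rw [map_zero] at this
    simp only [map_sub, map_mul] at this
    linear_combination (norm := noncomm_ring) -this
  refine ⟨c, hc, ((k + 1 : ℕ) : A) * c, B.mul_mem (natCast_mem B _) hc, b, hb, hc'0, y,
    H.central D y hyB hyX, ?_⟩
  change _ = ι c * (nn * ι X - ci * ι b) + ι b
  rw [mul_sub, e1, sub_add_cancel, map_mul, map_natCast, ← hnn, hn, mul_assoc]

end Pool.Agent.R693.O
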