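import Pool.Agent.R693.E.B4

/-!
Piece OB, part 5: non-zero central elements of the ring of fractions are units.
-/

set_option autoImplicit false

namespace Pool.Agent.R693.O

variable {A : Type} [Ring A] {B : Subring A} {X : A} {F : Type} [Ring F] {ι : A →+* F}

lemma Dat.mul_ne (D : Dat B X) {a b : A} (ha : a ∈ B) (hb : b ∈ B) (ha0 : a ≠ 0) (hb0 : b ≠ 0) :
    a * b ≠ 0 := by
  intro h
  rcases D.dom a ha b hb h with h | h
  · exact ha0 h
  · exact hb0 h

/-- The division ring of fractions of `B` inside `F`. -/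
def Qs (D : Dat B X) (_H : IsFrac B ι) : Subring F where
  carrier := {e | ∃ c ∈ B, c ≠ 0 ∧ ∃ b ∈ B, ι c * e = ι b}
  mul_mem' := by
    rintro e1 e2 ⟨c1, hc1, hc10, b1, hb1, h1⟩ ⟨c2, hc2, hc20, b2, hb2, h2⟩
    obtain ⟨u, hu, hu0, v, hv, huv⟩ := D.ore b1 hb1 c2 hc2 hc20
    refine ⟨u * c1, B.mul_mem hu hc1, D.mul_ne hu hc1 hu0 hc10, v * b2, B.mul_mem hv hb2, ?_⟩
    rw [map_mul, ← mul_assoc, mul_assoc (ι u), h1, ← map_mul, huv, map_mul, mul_assoc, h2, map_mul]
  one_mem' := ⟨1, B.one_mem, D.one, 1, B.one_mem, by simp⟩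
  add_mem' := by
    rintro e1 e2 ⟨c1, hc1, hc10, b1, hb1, h1⟩ ⟨c2, hc2, hc20, b2, hb2, h2⟩
    obtain ⟨u, hu, hu0, v, hv, huv⟩ := D.ore c1 hc1 c2 hc2 hc20
    refine ⟨u * c1, B.mul_mem hu hc1, D.mul_ne hu hc1 hu0 hc10, u * b1 + v * b2,
      B.add_mem (B.mul_mem hu hb1) (B.mul_mem hv hb2), ?_⟩
    rw [mul_add]
    nth_rw 2 [huv]
    rw [map_mul, map_mul, mul_assoc, mul_assoc, h1, h2, map_add, map_mul, map_mul]
  zero_mem' := ⟨1, B.one_mem, D.one, 0, B.zero_mem, by simp⟩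
  neg_mem' := by
    rintro e1 ⟨c1, hc1, hc10, b1, hb1, h1⟩
    exact ⟨c1, hc1, hc10, -b1, B.neg_mem hb1, by rw [mul_neg, h1, map_neg]⟩

lemma Qs_unit (D : Dat B X) (H : IsFrac B ι) (a : Qs D H) : IsUnit a ∨ a = 0 := by
  by_cases ha : a = 0
  · exact Or.inr ha
  left
  obtain ⟨e, c, hc, hc0, b, hb, h⟩ := a
  have he0 : e ≠ 0 := fun h => ha (Subtype.ext h)
  have hb0 : b ≠ 0 := by
    rintro rfl
    rw [map_zero] at h
    exact he0 (H.cancel0 hc hc0 h)
  obtain ⟨⟨_, ci, hci1, hci2⟩, rfl⟩ := H.unit c hc hc0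
  obtain ⟨⟨_, bi, hbi1, hbi2⟩, rfl⟩ := H.unit b hb hb0
  have he : e = ci * ι b := by rw [← h, ← mul_assoc, hci2, one_mul]
  have hmem : bi * ι c ∈ Qs D H := ⟨b, hb, hb0, c, hc, by rw [← mul_assoc, hbi1, one_mul]⟩
  refine isUnit_iff_exists.2 ⟨⟨bi * ι c, hmem⟩, ?_, ?_⟩
  · apply Subtype.ext
    change e * (bi * ι c) = 1
    rw [he, mul_assoc, ← mul_assoc (ι b), hbi1, one_mul, hci2]
  · apply Subtype.ext
    change bi * ι c * e = 1
    rw [mul_assoc, h, hbi2]

lemma central_unit (D : Dat B X) (H : IsFrac B ι) {n : ℕ} (N : AlgDeg B X n) (z : F)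
    (hz : ∀ f, z * f = f * z) (hz0 : z ≠ 0) : IsUnit z := by
  classical
  have : Nontrivial F := ⟨z, 0, hz0⟩
  let _ : DivisionRing (Qs D H) := DivisionRing.ofIsUnitOrEqZero (Qs_unit D H)
  -- the powers of X span
  have hmem : ∀ c ∈ B, ι c ∈ Qs D H := fun c hc => ⟨1, B.one_mem, D.one, c, hc, by simp⟩
  have hfin : (⊤ : Submodule (Qs D H) F) =
      Submodule.span (Qs D H) ((fun i : ℕ => ι (X ^ i)) '' Set.Iio n) := by
    symm
    rw [eq_top_iff]
    rintro e -
    have hL : ∀ m ≤ n, ∀ a : A, Lw B X m a →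
        ι a ∈ Submodule.span (Qs D H) ((fun i : ℕ => ι (X ^ i)) '' Set.Iio n) := by
      intro m
      induction m with
      | zero => intro _ a ha; change a = 0 at ha; rw [ha, map_zero]; exact Submodule.zero_mem _
      | succ m ih =>
        rintro hm a ⟨b, hb, z', hz', rfl⟩
        rw [map_add, map_mul]
        refine Submodule.add_mem _ ?_ (ih (by omega) _ hz')
        exact Submodule.smul_mem _ (⟨ι b, hmem b hb⟩ : Qs D H)
          (Submodule.subset_span ⟨m, Set.mem_Iio.2 (by omega), rfl⟩)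
    obtain ⟨c, hc, hc0, a, h⟩ := H.surj e
    obtain ⟨u, hu, hu0, hua⟩ := lower D N a
    have huc := D.mul_ne hu hc hu0 hc0
    obtain ⟨⟨_, ci, hci1, hci2⟩, hci⟩ := H.unit (u * c) (B.mul_mem hu hc) huc
    simp only at hci
    subst hci
    have hciQ : ci ∈ Qs D H := ⟨u * c, B.mul_mem hu hc, huc, 1, B.one_mem, by rw [hci1, map_one]⟩
    have he : e = ci * ι (u * a) := by
      rw [map_mul ι u a, ← h, ← mul_assoc (ι u), ← map_mul, ← mul_assoc, hci2, one_mul]
    rw [he]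
    exact Submodule.smul_mem _ (⟨ci, hciQ⟩ : Qs D H) (hL n le_rfl _ hua)
  have : Module.Finite (Qs D H) F := by
    refine ⟨?_⟩
    rw [hfin]
    exact Submodule.fg_span ((Set.finite_Iio n).image _)
  let L : F →ₗ[Qs D H] F :=
    { toFun := fun e => e * z
      map_add' := fun a b => add_mul a b z
      map_smul' := fun q a => by
        change (q : F) * a * z = (q : F) * (a * z)
        rw [mul_assoc] }
  have hinj : Function.Injective L := by
    rw [← LinearMap.ker_eq_bot, LinearMap.ker_eq_bot']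
    intro e he
    have he' : e * z = 0 := he
    rcases H.prime D e z (fun f => by rw [mul_assoc, ← hz f, ← mul_assoc, he', zero_mul]) with h | h
    · exact h
    · exact absurd h hz0
  have hsurj : Function.Surjective L := LinearMap.injective_iff_surjective.1 hinj
  obtain ⟨w, hw⟩ := hsurj 1
  have hw' : w * z = 1 := hw
  exact isUnit_iff_exists.2 ⟨w, by rw [hz, hw'], hw'⟩

end Pool.Agent.R693.O
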