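import Mathlib

/-!
Chains of generators: `Ch K n R` says that the subalgebra `R` is generated by `x_1, ..., x_n` with
`[x_{j+1}, R_j]` contained in `R_j` (`R_j` the subalgebra generated by `x_1, ..., x_j`).
Goal: over a field of characteristic zero, a prime ring with such a chain is a domain.
-/

set_option autoImplicit false

namespace Pool.Agent.R693.O

variable (K : Type) [Field K] {E : Type} [Ring E] [Algebra K E]

/-- A chain of generators of length `n`. -/
def Ch : ℕ → Subalgebra K E → Prop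
  | 0, R => R = ⊥
  | n + 1, R => ∃ (R₀ : Subalgebra K E) (x : E), Ch n R₀ ∧ (∀ r ∈ R₀, x * r - r * x ∈ R₀) ∧
      R = Algebra.adjoin K (insert x (R₀ : Set E))

variable {K}

/-- `R` is a prime ring. -/
def PrimeS (R : Subalgebra K E) : Prop :=
  (1 : E) ≠ 0 ∧ ∀ a ∈ R, ∀ b ∈ R, (∀ r ∈ R, a * r * b = 0) → a = 0 ∨ b = 0

/-- `R` has no zero divisors. -/
def DomS (R : Subalgebra K E) : Prop := ∀ a ∈ R, ∀ b ∈ R, a * b = 0 → a = 0 ∨ b = 0

end Pool.Agent.R693.O
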