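import Pool.Agent.R693.E.B5
import Pool.Agent.R693.E.Defs

/-!
Piece OB, part 6: the subalgebra `T = K' B` of the ring of fractions over the centre `K'`.
-/

set_option autoImplicit false

namespace Pool.Agent.R693.O

section Transfer

variable {K K' : Type} [Field K] [Field K'] {A F : Type} [Ring A] [Algebra K A] [Ring F]
  [Algebra K' F]

lemma Ch_transfer (φ : A →+* F) (hφ : ∀ k : K, ∃ k' : K', φ (algebraMap K A k) = algebraMap K' F k') :
    ∀ (n : ℕ) (S : Subalgebra K A), Ch K n S → Ch K' n (Algebra.adjoin K' (φ '' (S : Set A))) := by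
  intro n
  induction n with
  | zero =>
    intro S hS
    change S = ⊥ at hS
    change Algebra.adjoin K' (φ '' (S : Set A)) = ⊥
    rw [eq_bot_iff, Algebra.adjoin_le_iff]
    rintro _ ⟨a, ha, rfl⟩
    rw [hS] at ha
    obtain ⟨k, rfl⟩ := Algebra.mem_bot.1 ha
    obtain ⟨k', hk'⟩ := hφ k
    rw [hk']
    exact Subalgebra.algebraMap_mem _ _
  | succ n ih =>
    rintro S ⟨S₀, x, hS₀, hx, hS⟩
    refine ⟨Algebra.adjoin K' (φ '' (S₀ : Set A)), φ x, ih S₀ hS₀, ?_, ?_⟩
    · intro t ht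
      induction ht using Algebra.adjoin_induction with
      | mem t ht =>
        obtain ⟨s, hs, rfl⟩ := ht
        apply Algebra.subset_adjoin
        exact ⟨x * s - s * x, hx s hs, by simp⟩
      | algebraMap k => rw [Algebra.commutes k (φ x), sub_self]; exact Subalgebra.zero_mem _
      | add a b _ _ iha ihb =>
        have : φ x * (a + b) - (a + b) * φ x = (φ x * a - a * φ x) + (φ x * b - b * φ x) := by
          noncomm_ring
        rw [this]; exact Subalgebra.add_mem _ iha ihb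
      | mul a b ha hb iha ihb =>
        have : φ x * (a * b) - (a * b) * φ x = (φ x * a - a * φ x) * b + a * (φ x * b - b * φ x) := by
          noncomm_ring
        rw [this]
        exact Subalgebra.add_mem _ (Subalgebra.mul_mem _ iha hb) (Subalgebra.mul_mem _ ha ihb)
    · apply le_antisymm
      · rw [Algebra.adjoin_le_iff]
        rintro _ ⟨s, hs, rfl⟩
        rw [hS] at hs
        change φ s ∈ Algebra.adjoin K' (insert (φ x) (Algebra.adjoin K' (φ '' (S₀ : Set A)) : Set F))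
        induction hs using Algebra.adjoin_induction with
        | mem t ht =>
          rcases ht with rfl | ht
          · exact Algebra.subset_adjoin (Or.inl rfl)
          · exact Algebra.subset_adjoin (Or.inr (Algebra.subset_adjoin ⟨t, ht, rfl⟩))
        | algebraMap k =>
          obtain ⟨k', hk'⟩ := hφ k
          rw [hk']
          exact Subalgebra.algebraMap_mem _ _
        | add a b _ _ iha ihb => rw [map_add]; exact Subalgebra.add_mem _ iha ihb
        | mul a b _ _ iha ihb => rw [map_mul]; exact Subalgebra.mul_mem _ iha ihb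
      · rw [Algebra.adjoin_le_iff]
        rintro t (rfl | ht)
        · apply Algebra.subset_adjoin
          exact ⟨x, by rw [hS]; exact Algebra.subset_adjoin (Or.inl rfl), rfl⟩
        · refine Algebra.adjoin_mono (Set.image_mono ?_) ht
          rw [hS]
          exact fun s hs => Algebra.subset_adjoin (Or.inr hs)

lemma Ch_comap {E : Type} [Ring E] [Algebra K E] (R : Subalgebra K E) :
    ∀ (n : ℕ) (S : Subalgebra K E), S ≤ R → Ch K n S → Ch K n (S.comap R.val) := by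
  intro n
  induction n with
  | zero =>
    intro S _ hS
    change S = ⊥ at hS
    change S.comap R.val = ⊥
    rw [eq_bot_iff]
    intro a ha
    have ha' : (a : E) ∈ S := ha
    rw [hS] at ha'
    obtain ⟨k, hk⟩ := Algebra.mem_bot.1 ha'
    exact Algebra.mem_bot.2 ⟨k, Subtype.ext hk⟩
  | succ n ih =>
    rintro S hSR ⟨S₀, x, hS₀, hx, hS⟩
    have hS₀S : S₀ ≤ S := by rw [hS]; exact fun s hs => Algebra.subset_adjoin (Or.inr hs)
    have hxS : x ∈ S := by rw [hS]; exact Algebra.subset_adjoin (Or.inl rfl)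
    refine ⟨S₀.comap R.val, ⟨x, hSR hxS⟩, ih S₀ (hS₀S.trans hSR) hS₀, ?_, ?_⟩
    · intro r hr
      exact hx r.1 hr
    · apply le_antisymm
      · intro a ha
        have ha' : (a : E) ∈ S := ha
        rw [hS] at ha'
        have key : ∀ z : E, z ∈ Algebra.adjoin K (insert x (S₀ : Set E)) → ∃ h : z ∈ R,
            (⟨z, h⟩ : R) ∈ Algebra.adjoin K (insert (⟨x, hSR hxS⟩ : R)
              ((S₀.comap R.val : Subalgebra K R) : Set R)) := by
          intro z hz
          induction hz using Algebra.adjoin_induction with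
          | mem t ht =>
            rcases ht with rfl | ht
            · exact ⟨hSR hxS, Algebra.subset_adjoin (Or.inl rfl)⟩
            · exact ⟨hSR (hS₀S ht), Algebra.subset_adjoin (Or.inr ht)⟩
          | algebraMap k =>
            exact ⟨Subalgebra.algebraMap_mem _ k, Subalgebra.algebraMap_mem _ k⟩
          | add a b _ _ iha ihb =>
            exact ⟨Subalgebra.add_mem _ iha.1 ihb.1, Subalgebra.add_mem _ iha.2 ihb.2⟩
          | mul a b _ _ iha ihb =>
            exact ⟨Subalgebra.mul_mem _ iha.1 ihb.1, Subalgebra.mul_mem _ iha.2 ihb.2⟩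
        exact (key _ ha').2
      · rw [Algebra.adjoin_le_iff]
        rintro a (rfl | ha)
        · exact hxS
        · exact hS₀S ha

end Transfer

variable {A : Type} [Ring A] {B : Subring A} {X : A} {F : Type} [Ring F] {ι : A →+* F}
  {K' : Type} [Field K'] [Algebra K' F]

lemma T_ore (D : Dat B X) {t : F} (ht : t ∈ Algebra.adjoin K' (ι '' (B : Set A))) :
    ∀ c ∈ B, c ≠ 0 → ∃ u ∈ B, u ≠ 0 ∧ ∃ t' ∈ Algebra.adjoin K' (ι '' (B : Set A)),
      ι u * t = t' * ι c := by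
  have hB : ∀ b ∈ B, ι b ∈ Algebra.adjoin K' (ι '' (B : Set A)) := fun b hb =>
    Algebra.subset_adjoin ⟨b, hb, rfl⟩
  induction ht using Algebra.adjoin_induction with
  | mem t ht =>
    obtain ⟨b, hb, rfl⟩ := ht
    intro c hc hc0
    obtain ⟨u, hu, hu0, v, hv, huv⟩ := D.ore b hb c hc hc0
    exact ⟨u, hu, hu0, ι v, hB v hv, by rw [← map_mul, huv, map_mul]⟩
  | algebraMap k =>
    intro c hc hc0
    exact ⟨c, hc, hc0, algebraMap K' F k, Subalgebra.algebraMap_mem _ _,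
      (Algebra.commutes k (ι c)).symm⟩
  | add a b _ _ iha ihb =>
    intro c hc hc0
    obtain ⟨u1, hu1, hu10, t1, ht1, h1⟩ := iha c hc hc0
    obtain ⟨u2, hu2, hu20, t2, ht2, h2⟩ := ihb c hc hc0
    obtain ⟨v1, hv1, hv10, v2, hv2, huv⟩ := D.ore u1 hu1 u2 hu2 hu20
    refine ⟨v1 * u1, B.mul_mem hv1 hu1, D.mul_ne hv1 hu1 hv10 hu10, ι v1 * t1 + ι v2 * t2,
      Subalgebra.add_mem _ (Subalgebra.mul_mem _ (hB _ hv1) ht1)
        (Subalgebra.mul_mem _ (hB _ hv2) ht2), ?_⟩
    rw [mul_add, add_mul]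
    congr 1
    · rw [map_mul, mul_assoc, h1, mul_assoc]
    · rw [huv, map_mul, mul_assoc, h2, mul_assoc]
  | mul a b ha hb iha ihb =>
    intro c hc hc0
    obtain ⟨u2, hu2, hu20, t2, ht2, h2⟩ := ihb c hc hc0
    obtain ⟨u1, hu1, hu10, t1, ht1, h1⟩ := iha u2 hu2 hu20
    refine ⟨u1, hu1, hu10, t1 * t2, Subalgebra.mul_mem _ ht1 ht2, ?_⟩
    rw [← mul_assoc, h1, mul_assoc, h2, mul_assoc]

lemma T_denom (D : Dat B X) (H : IsFrac B ι)
    (hX : ∃ c' ∈ B, c' ≠ 0 ∧ ι c' * ι X ∈ Algebra.adjoin K' (ι '' (B : Set A))) (e : F) :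
    ∃ c ∈ B, c ≠ 0 ∧ ι c * e ∈ Algebra.adjoin K' (ι '' (B : Set A)) := by
  have hB : ∀ b ∈ B, ι b ∈ Algebra.adjoin K' (ι '' (B : Set A)) := fun b hb =>
    Algebra.subset_adjoin ⟨b, hb, rfl⟩
  have hadd : ∀ e1 e2 : F,
      (∃ c ∈ B, c ≠ 0 ∧ ι c * e1 ∈ Algebra.adjoin K' (ι '' (B : Set A))) →
      (∃ c ∈ B, c ≠ 0 ∧ ι c * e2 ∈ Algebra.adjoin K' (ι '' (B : Set A))) →
      (∃ c ∈ B, c ≠ 0 ∧ ι c * (e1 + e2) ∈ Algebra.adjoin K' (ι '' (B : Set A))) := by
    rintro e1 e2 ⟨c1, hc1, hc10, h1⟩ ⟨c2, hc2, hc20, h2⟩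
    obtain ⟨v1, hv1, hv10, v2, hv2, huv⟩ := D.ore c1 hc1 c2 hc2 hc20
    refine ⟨v1 * c1, B.mul_mem hv1 hc1, D.mul_ne hv1 hc1 hv10 hc10, ?_⟩
    rw [mul_add]
    refine Subalgebra.add_mem _ ?_ ?_
    · rw [map_mul, mul_assoc]; exact Subalgebra.mul_mem _ (hB _ hv1) h1
    · rw [huv, map_mul, mul_assoc]; exact Subalgebra.mul_mem _ (hB _ hv2) h2
  have hmul : ∀ e1 e2 : F,
      (∃ c ∈ B, c ≠ 0 ∧ ι c * e1 ∈ Algebra.adjoin K' (ι '' (B : Set A))) →
      (∃ c ∈ B, c ≠ 0 ∧ ι c * e2 ∈ Algebra.adjoin K' (ι '' (B : Set A))) →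
      (∃ c ∈ B, c ≠ 0 ∧ ι c * (e1 * e2) ∈ Algebra.adjoin K' (ι '' (B : Set A))) := by
    rintro e1 e2 ⟨c1, hc1, hc10, h1⟩ ⟨c2, hc2, hc20, h2⟩
    obtain ⟨u, hu, hu0, t', ht', h⟩ := T_ore D h1 c2 hc2 hc20
    refine ⟨u * c1, B.mul_mem hu hc1, D.mul_ne hu hc1 hu0 hc10, ?_⟩
    have : ι (u * c1) * (e1 * e2) = t' * (ι c2 * e2) := by
      rw [← mul_assoc t', ← h, map_mul]; simp only [mul_assoc]
    rw [this]
    exact Subalgebra.mul_mem _ ht' h2
  have hBG : ∀ b ∈ B, ∃ c ∈ B, c ≠ 0 ∧ ι c * ι b ∈ Algebra.adjoin K' (ι '' (B : Set A)) :=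
    fun b hb => ⟨1, B.one_mem, D.one, by rw [map_one, one_mul]; exact hB b hb⟩
  have hXp : ∀ m : ℕ, ∃ c ∈ B, c ≠ 0 ∧ ι c * ι (X ^ m) ∈ Algebra.adjoin K' (ι '' (B : Set A)) := by
    intro m
    induction m with
    | zero => rw [pow_zero]; exact hBG 1 B.one_mem
    | succ m ih => rw [pow_succ, map_mul]; exact hmul _ _ ih hX
  have hA : ∀ a : A, ∃ c ∈ B, c ≠ 0 ∧ ι c * ι a ∈ Algebra.adjoin K' (ι '' (B : Set A)) := by
    intro a
    obtain ⟨m, hm⟩ := D.gen a
    induction m generalizing a with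
    | zero => change a = 0 at hm; rw [hm]; exact hBG 0 B.zero_mem
    | succ m ih =>
      obtain ⟨b, hb, z, hz, rfl⟩ := hm
      rw [map_add, map_mul]
      exact hadd _ _ (hmul _ _ (hBG b hb) (hXp m)) (ih z hz)
  obtain ⟨c, hc, hc0, a, h⟩ := H.surj e
  obtain ⟨c', hc', hc'0, h'⟩ := hA a
  refine ⟨c' * c, B.mul_mem hc' hc, D.mul_ne hc' hc hc'0 hc0, ?_⟩
  rw [map_mul, mul_assoc, h]
  exact h'

lemma T_prime (D : Dat B X) (H : IsFrac B ι)
    (hden : ∀ e : F, ∃ c ∈ B, c ≠ 0 ∧ ι c * e ∈ Algebra.adjoin K' (ι '' (B : Set A)))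
    (hN : IsNoetherianRing (Algebra.adjoin K' (ι '' (B : Set A)))) :
    PrimeS (Algebra.adjoin K' (ι '' (B : Set A))) := by
  classical
  set T := Algebra.adjoin K' (ι '' (B : Set A)) with hT
  have hB : ∀ b ∈ B, ι b ∈ T := fun b hb => Algebra.subset_adjoin ⟨b, hb, rfl⟩
  refine ⟨fun h => D.one (H.inj (by rw [map_one, map_zero, h])), ?_⟩
  intro t1 ht1 t2 ht2 h12
  -- left cancellation of `c` modulo the annihilator
  have key : ∀ t ∈ T, ∀ c ∈ B, c ≠ 0 → (∀ r ∈ T, t * ι c * r * t2 = 0) →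
      ∀ r ∈ T, t * r * t2 = 0 := by
    intro t ht c hc hc0 h
    let I : ℕ → Ideal T := fun k =>
      { carrier := {s | ∀ r ∈ T, (s : F) * ι c ^ k * r * t2 = 0}
        add_mem' := by
          intro a b ha hb r hr
          change ((a : F) + b) * ι c ^ k * r * t2 = 0
          rw [add_mul, add_mul, add_mul, ha r hr, hb r hr, add_zero]
        zero_mem' := by
          intro r _
          change (0 : F) * ι c ^ k * r * t2 = 0
          simp
        smul_mem' := by
          intro a s hs r hr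
          change ((a : F) * s) * ι c ^ k * r * t2 = 0
          have := hs r hr
          calc ((a : F) * s) * ι c ^ k * r * t2 = a * (s * ι c ^ k * r * t2) := by noncomm_ring
            _ = 0 := by rw [this, mul_zero] }
    have hI : ∀ k (s : T), s ∈ I k ↔ ∀ r ∈ T, (s : F) * ι c ^ k * r * t2 = 0 :=
      fun k s => Iff.rfl
    have hmono : Monotone I := by
      apply monotone_nat_of_le_succ
      intro k s hs
      rw [hI] at hs ⊢
      intro r hr
      have := hs (ι c * r) (T.mul_mem (hB c hc) hr)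
      rw [pow_succ, ← this]
      simp only [mul_assoc]
    obtain ⟨m, hm⟩ := (monotone_stabilizes_iff_noetherian (R := T) (M := T)).2 hN ⟨I, hmono⟩
    have hm1 : I m = I (m + 1) := hm (m + 1) (Nat.le_succ m)
    have hpow : ∀ m : ℕ, c ^ m ≠ 0 ∧ c ^ m ∈ B := by
      intro m
      induction m with
      | zero => rw [pow_zero]; exact ⟨D.one, B.one_mem⟩
      | succ m ih =>
        rw [pow_succ]
        exact ⟨D.mul_ne ih.2 hc ih.1 hc0, B.mul_mem ih.2 hc⟩
    have hcm := hpow m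
    obtain ⟨u, hu, hu0, t', ht', hut⟩ := T_ore (K' := K') D ht (c ^ m) hcm.2 hcm.1
    have h1 : (⟨t', ht'⟩ : T) ∈ I (m + 1) := by
      rw [hI]
      intro r hr
      change t' * ι c ^ (m + 1) * r * t2 = 0
      rw [pow_succ, ← mul_assoc, ← map_pow, ← hut]
      have := h r hr
      calc ι u * t * ι c * r * t2 = ι u * (t * ι c * r * t2) := by noncomm_ring
        _ = 0 := by rw [this, mul_zero]
    rw [← hm1, hI] at h1
    intro r hr
    apply H.cancel0 hu hu0
    have := h1 r hr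
    change t' * ι c ^ m * r * t2 = 0 at this
    rw [← map_pow, ← hut] at this
    rw [← this]
    simp only [mul_assoc]
  apply H.prime D
  intro e
  obtain ⟨c, hc, hc0, hce⟩ := hden e
  obtain ⟨u, hu, hu0, t', ht', hut⟩ := T_ore (K' := K') D ht1 c hc hc0
  apply H.cancel0 hu hu0
  have h1 := key t' ht' c hc hc0 (fun r hr => by
    rw [← hut]
    have := h12 r hr
    calc ι u * t1 * r * t2 = ι u * (t1 * r * t2) := by noncomm_ring
      _ = 0 := by rw [this, mul_zero]) (ι c * e) hce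
  rw [← h1]
  calc ι u * (t1 * e * t2) = (ι u * t1) * e * t2 := by noncomm_ring
    _ = t' * (ι c * e) * t2 := by rw [hut]; noncomm_ring

lemma F_dom (D : Dat B X) (H : IsFrac B ι)
    (hden : ∀ e : F, ∃ c ∈ B, c ≠ 0 ∧ ι c * e ∈ Algebra.adjoin K' (ι '' (B : Set A)))
    (hT : DomS (Algebra.adjoin K' (ι '' (B : Set A)))) (e1 e2 : F) (h : e1 * e2 = 0) :
    e1 = 0 ∨ e2 = 0 := by
  obtain ⟨c1, hc1, hc10, h1⟩ := hden e1
  obtain ⟨c2, hc2, hc20, h2⟩ := hden e2
  obtain ⟨u, hu, hu0, t', ht', hut⟩ := T_ore (K' := K') D h1 c2 hc2 hc20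
  have h3 : t' * (ι c2 * e2) = 0 := by
    rw [← mul_assoc, ← hut]
    calc ι u * (ι c1 * e1) * e2 = ι u * (ι c1 * (e1 * e2)) := by noncomm_ring
      _ = 0 := by rw [h, mul_zero, mul_zero]
  rcases hT _ ht' _ h2 h3 with h0 | h0
  · left
    rw [h0, zero_mul] at hut
    exact H.cancel0 hc1 hc10 (H.cancel0 hu hu0 hut)
  · right
    exact H.cancel0 hc2 hc20 h0

end Pool.Agent.R693.O
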