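import Pool.Agent.R693.E.Defs

/-!
Piece OA: the skew Hilbert basis theorem (both sides) and: in characteristic zero a prime ring
`R = R₀[x]` has a prime coefficient ring `R₀`.
-/

set_option autoImplicit false

namespace Pool.Agent.R693.O

namespace OA

section skew

variable {R S : Type} [Ring R] [Ring S] (f : R →+* S) (x : S)

/-- the additive span of `f r * x ^ i`, `i < n` -/
def Lw (n : ℕ) : AddSubgroup S := AddSubgroup.closure {s | ∃ r : R, ∃ i < n, s = f r * x ^ i}

lemma Lw_mono {m n : ℕ} (h : m ≤ n) : Lw f x m ≤ Lw f x n := by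
  apply AddSubgroup.closure_mono
  rintro s ⟨r, i, hi, rfl⟩
  exact ⟨r, i, by omega, rfl⟩

lemma Lw_zero : Lw f x 0 = ⊥ := by
  unfold Lw
  have : {s | ∃ r : R, ∃ i < 0, s = f r * x ^ i} = (∅ : Set S) := by
    ext s; simp
  rw [this, AddSubgroup.closure_empty]

lemma Lw_gen (r : R) {i n : ℕ} (h : i < n) : f r * x ^ i ∈ Lw f x n :=
  AddSubgroup.subset_closure ⟨r, i, h, rfl⟩

lemma Lw_smul (r : R) {n : ℕ} {s : S} (hs : s ∈ Lw f x n) : f r * s ∈ Lw f x n := by
  unfold Lw at hs
  induction hs using AddSubgroup.closure_induction with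
  | mem s h =>
    obtain ⟨r', i, hi, rfl⟩ := h
    rw [← mul_assoc, ← map_mul]
    exact Lw_gen f x _ hi
  | zero => rw [mul_zero]; exact zero_mem _
  | add a b _ _ ha hb => rw [mul_add]; exact add_mem ha hb
  | neg a _ ha => rw [mul_neg]; exact neg_mem ha

lemma Lw_x (hx : ∀ r, ∃ r', x * f r = f r * x + f r') {n : ℕ} {s : S} (hs : s ∈ Lw f x n) :
    x * s ∈ Lw f x (n + 1) := by
  unfold Lw at hs
  induction hs using AddSubgroup.closure_induction with
  | mem s h =>
    obtain ⟨r, i, hi, rfl⟩ := h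
    obtain ⟨r', hr'⟩ := hx r
    rw [← mul_assoc, hr', add_mul, mul_assoc, ← pow_succ']
    exact add_mem (Lw_gen f x _ (by omega)) (Lw_gen f x _ (by omega))
  | zero => rw [mul_zero]; exact zero_mem _
  | add a b _ _ ha hb => rw [mul_add]; exact add_mem ha hb
  | neg a _ ha => rw [mul_neg]; exact neg_mem ha

lemma Lw_succ {n : ℕ} {s : S} (hs : s ∈ Lw f x (n + 1)) : ∃ r, s - f r * x ^ n ∈ Lw f x n := by
  unfold Lw at hs
  induction hs using AddSubgroup.closure_induction with
  | mem s h =>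
    obtain ⟨r, i, hi, rfl⟩ := h
    rcases eq_or_lt_of_le (Nat.lt_succ_iff.1 hi) with h | h
    · subst h
      exact ⟨r, by rw [sub_self]; exact zero_mem _⟩
    · exact ⟨0, by rw [map_zero, zero_mul, sub_zero]; exact Lw_gen f x _ h⟩
  | zero => exact ⟨0, by rw [map_zero, zero_mul, sub_zero]; exact zero_mem _⟩
  | add a b _ _ ha hb =>
    obtain ⟨r, hr⟩ := ha
    obtain ⟨r', hr'⟩ := hb
    refine ⟨r + r', ?_⟩
    have := add_mem hr hr'
    rw [map_add, add_mul]
    convert this using 1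
    abel
  | neg a _ ha =>
    obtain ⟨r, hr⟩ := ha
    refine ⟨-r, ?_⟩
    have := neg_mem hr
    rw [map_neg, neg_mul]
    convert this using 1
    abel

/-- the left ideal of leading coefficients in degree `j` -/
def LI (I : Submodule S S) (j : ℕ) : Submodule R R where
  carrier := {r | ∃ s ∈ I, s - f r * x ^ j ∈ Lw f x j}
  add_mem' := by
    rintro a b ⟨s, hs, h⟩ ⟨t, ht, h'⟩
    refine ⟨s + t, add_mem hs ht, ?_⟩
    have := add_mem h h'
    rw [map_add, add_mul]
    convert this using 1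
    abel
  zero_mem' := ⟨0, I.zero_mem, by rw [map_zero, zero_mul, sub_zero]; exact zero_mem _⟩
  smul_mem' := by
    rintro c a ⟨s, hs, h⟩
    refine ⟨f c * s, I.smul_mem _ hs, ?_⟩
    have := Lw_smul f x c h
    rw [smul_eq_mul, map_mul]
    convert this using 1
    rw [mul_sub, mul_assoc]

lemma LI_mono_left {I J : Submodule S S} (h : I ≤ J) (j : ℕ) : LI f x I j ≤ LI f x J j := by
  rintro r ⟨s, hs, h'⟩
  exact ⟨s, h hs, h'⟩

lemma LI_succ (hx : ∀ r, ∃ r', x * f r = f r * x + f r') (I : Submodule S S) (j : ℕ) :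
    LI f x I j ≤ LI f x I (j + 1) := by
  rintro r ⟨s, hs, h⟩
  refine ⟨x * s, I.smul_mem _ hs, ?_⟩
  obtain ⟨r', hr'⟩ := hx r
  have h1 := Lw_x f x hx h
  have h2 : f r' * x ^ j ∈ Lw f x (j + 1) := Lw_gen f x _ (by omega)
  have := add_mem h1 h2
  convert this using 1
  rw [mul_sub, ← mul_assoc x (f r), hr', add_mul, mul_assoc (f r), ← pow_succ']
  abel

lemma LI_mono_right (hx : ∀ r, ∃ r', x * f r = f r * x + f r') (I : Submodule S S) {j k : ℕ}
    (h : j ≤ k) : LI f x I j ≤ LI f x I k :=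
  monotone_nat_of_le_succ (LI_succ f x hx I) h

lemma LI_inj (hS : ∀ s : S, ∃ n, s ∈ Lw f x n) {I J : Submodule S S} (hIJ : I ≤ J)
    (h : ∀ j, LI f x J j ≤ LI f x I j) : J ≤ I := by
  have key : ∀ n, ∀ s ∈ J, s ∈ Lw f x n → s ∈ I := by
    intro n
    induction n with
    | zero =>
      intro s _ hs
      rw [Lw_zero, AddSubgroup.mem_bot] at hs
      rw [hs]
      exact I.zero_mem
    | succ n ih =>
      intro s hsJ hs
      obtain ⟨r, hr⟩ := Lw_succ f x hs
      obtain ⟨s', hs', h'⟩ := h n (show r ∈ LI f x J n from ⟨s, hsJ, hr⟩)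
      have h1 : s - s' ∈ Lw f x n := by
        have := sub_mem hr h'
        convert this using 1
        abel
      have h2 := ih (s - s') (sub_mem hsJ (hIJ hs')) h1
      have := add_mem h2 hs'
      rwa [sub_add_cancel] at this
  intro s hs
  obtain ⟨n, hn⟩ := hS s
  exact key n s hs hn

theorem skew_hilbert (hx : ∀ r, ∃ r', x * f r = f r * x + f r') (hS : ∀ s : S, ∃ n, s ∈ Lw f x n)
    (hR : IsNoetherianRing R) : IsNoetherianRing S := by
  have hacc := monotone_stabilizes_iff_noetherian.2 hR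
  apply monotone_stabilizes_iff_noetherian.1
  intro I
  -- the diagonal
  obtain ⟨k1, hk1⟩ := hacc ⟨fun k => LI f x (I k) k, fun a b hab =>
    (LI_mono_left f x (I.monotone hab) a).trans (LI_mono_right f x hx _ hab)⟩
  have hcol : ∀ j, ∃ n, ∀ m, n ≤ m → LI f x (I n) j = LI f x (I m) j := fun j =>
    hacc ⟨fun k => LI f x (I k) j, fun a b hab => LI_mono_left f x (I.monotone hab) j⟩
  choose kk hkk using hcol
  set N := k1 + ∑ j ∈ Finset.range k1, kk j with hN
  have hNk : ∀ j < k1, kk j ≤ N := by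
    intro j hj
    have := Finset.single_le_sum (f := kk) (fun i _ => Nat.zero_le _) (Finset.mem_range.2 hj)
    omega
  refine ⟨N, fun m hm => le_antisymm (I.monotone hm) ?_⟩
  apply LI_inj f x hS (I.monotone hm)
  intro j
  rcases lt_or_ge j k1 with h | h
  · have h1 := hkk j N (hNk j h)
    have h2 := hkk j m ((hNk j h).trans hm)
    rw [← h2, h1]
  · have h1 : LI f x (I m) j ≤ LI f x (I (max m j)) (max m j) :=
      (LI_mono_left f x (I.monotone (le_max_left _ _)) j).trans
        (LI_mono_right f x hx _ (le_max_right _ _))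
    have h2 := hk1 (max m j) (h.trans (le_max_right _ _))
    have h3 : LI f x (I k1) k1 ≤ LI f x (I N) j :=
      (LI_mono_left f x (I.monotone (by omega)) k1).trans (LI_mono_right f x hx _ h)
    exact h1.trans ((le_of_eq h2.symm).trans h3)

end skew

variable {K : Type} [Field K] {E : Type} [Ring E] [Algebra K E]

lemma span_left (R₀ : Subalgebra K E) (x : E) (hx : ∀ r ∈ R₀, x * r - r * x ∈ R₀)
    (hle : R₀ ≤ Algebra.adjoin K (insert x (R₀ : Set E)))
    (hxm : x ∈ Algebra.adjoin K (insert x (R₀ : Set E))) (hx' : ∀ r : R₀, ∃ r' : R₀,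
      (⟨x, hxm⟩ : Algebra.adjoin K (insert x (R₀ : Set E))) * Subalgebra.inclusion hle r =
        Subalgebra.inclusion hle r * ⟨x, hxm⟩ + Subalgebra.inclusion hle r') (s : E)
    (hs : s ∈ Algebra.adjoin K (insert x (R₀ : Set E))) :
    ∀ t, (∃ n, t ∈ Lw (Subalgebra.inclusion hle).toRingHom ⟨x, hxm⟩ n) →
      ∃ n, (⟨s, hs⟩ : Algebra.adjoin K (insert x (R₀ : Set E))) * t ∈
        Lw (Subalgebra.inclusion hle).toRingHom ⟨x, hxm⟩ n := by
  induction hs using Algebra.adjoin_induction with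
  | mem s hs =>
    rintro t ⟨n, hn⟩
    rcases hs with rfl | hs
    · exact ⟨n + 1, Lw_x _ _ hx' hn⟩
    · exact ⟨n, Lw_smul (Subalgebra.inclusion hle).toRingHom _ ⟨s, hs⟩ hn⟩
  | algebraMap k =>
    rintro t ⟨n, hn⟩
    exact ⟨n, Lw_smul (Subalgebra.inclusion hle).toRingHom _ ⟨_, R₀.algebraMap_mem k⟩ hn⟩
  | add a b ha hb iha ihb =>
    intro t ht
    obtain ⟨n, hn⟩ := iha t ht
    obtain ⟨m, hm⟩ := ihb t ht
    refine ⟨max n m, ?_⟩
    have := add_mem (Lw_mono _ _ (le_max_left n m) hn) (Lw_mono _ _ (le_max_right n m) hm)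
    rw [← add_mul] at this
    exact this
  | mul a b ha hb iha ihb =>
    intro t ht
    obtain ⟨n, hn⟩ := iha _ (ihb t ht)
    refine ⟨n, ?_⟩
    rw [← mul_assoc] at hn
    exact hn

lemma span_right (R₀ : Subalgebra K E) (x : E)
    (hle : R₀ ≤ Algebra.adjoin K (insert x (R₀ : Set E)))
    (hxm : x ∈ Algebra.adjoin K (insert x (R₀ : Set E))) (hx' : ∀ r : R₀ᵐᵒᵖ, ∃ r' : R₀ᵐᵒᵖ,
      MulOpposite.op (⟨x, hxm⟩ : Algebra.adjoin K (insert x (R₀ : Set E))) *
        (Subalgebra.inclusion hle).toRingHom.op r =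
        (Subalgebra.inclusion hle).toRingHom.op r * MulOpposite.op ⟨x, hxm⟩ +
          (Subalgebra.inclusion hle).toRingHom.op r') (s : E)
    (hs : s ∈ Algebra.adjoin K (insert x (R₀ : Set E))) :
    ∀ t, (∃ n, t ∈ Lw (Subalgebra.inclusion hle).toRingHom.op (MulOpposite.op ⟨x, hxm⟩) n) →
      ∃ n, MulOpposite.op (⟨s, hs⟩ : Algebra.adjoin K (insert x (R₀ : Set E))) * t ∈
        Lw (Subalgebra.inclusion hle).toRingHom.op (MulOpposite.op ⟨x, hxm⟩) n := by
  induction hs using Algebra.adjoin_induction with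
  | mem s hs =>
    rintro t ⟨n, hn⟩
    rcases hs with rfl | hs
    · exact ⟨n + 1, Lw_x _ _ hx' hn⟩
    · exact ⟨n, Lw_smul (Subalgebra.inclusion hle).toRingHom.op _ (MulOpposite.op ⟨s, hs⟩) hn⟩
  | algebraMap k =>
    rintro t ⟨n, hn⟩
    exact ⟨n, Lw_smul (Subalgebra.inclusion hle).toRingHom.op _
      (MulOpposite.op ⟨_, R₀.algebraMap_mem k⟩) hn⟩
  | add a b ha hb iha ihb =>
    intro t ht
    obtain ⟨n, hn⟩ := iha t ht
    obtain ⟨m, hm⟩ := ihb t ht
    refine ⟨max n m, ?_⟩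
    have := add_mem (Lw_mono _ _ (le_max_left n m) hn) (Lw_mono _ _ (le_max_right n m) hm)
    rw [← add_mul] at this
    exact this
  | mul a b ha hb iha ihb =>
    intro t ht
    obtain ⟨n, hn⟩ := ihb _ (iha t ht)
    refine ⟨n, ?_⟩
    rw [← mul_assoc] at hn
    exact hn

theorem step_noeth (R₀ : Subalgebra K E) (x : E) (hx : ∀ r ∈ R₀, x * r - r * x ∈ R₀)
    (h1 : IsNoetherianRing R₀) (h2 : IsNoetherianRing R₀ᵐᵒᵖ) :
    IsNoetherianRing (Algebra.adjoin K (insert x (R₀ : Set E))) ∧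
      IsNoetherianRing (Algebra.adjoin K (insert x (R₀ : Set E)))ᵐᵒᵖ := by
  have hle : R₀ ≤ Algebra.adjoin K (insert x (R₀ : Set E)) := fun r hr =>
    Algebra.subset_adjoin (Set.mem_insert_of_mem _ hr)
  have hxm : x ∈ Algebra.adjoin K (insert x (R₀ : Set E)) :=
    Algebra.subset_adjoin (Set.mem_insert _ _)
  have hx' : ∀ r : R₀, ∃ r' : R₀,
      (⟨x, hxm⟩ : Algebra.adjoin K (insert x (R₀ : Set E))) * Subalgebra.inclusion hle r =
        Subalgebra.inclusion hle r * ⟨x, hxm⟩ + Subalgebra.inclusion hle r' := by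
    intro r
    refine ⟨⟨x * r - r * x, hx r r.2⟩, ?_⟩
    apply Subtype.ext
    show x * (r : E) = r * x + (x * r - r * x)
    abel
  have hx'' : ∀ r : R₀ᵐᵒᵖ, ∃ r' : R₀ᵐᵒᵖ,
      MulOpposite.op (⟨x, hxm⟩ : Algebra.adjoin K (insert x (R₀ : Set E))) *
        (Subalgebra.inclusion hle).toRingHom.op r =
        (Subalgebra.inclusion hle).toRingHom.op r * MulOpposite.op ⟨x, hxm⟩ +
          (Subalgebra.inclusion hle).toRingHom.op r' := by
    intro r
    obtain ⟨r', hr'⟩ := hx' r.unop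
    refine ⟨-MulOpposite.op r', ?_⟩
    apply MulOpposite.unop_injective
    show Subalgebra.inclusion hle r.unop * ⟨x, hxm⟩ =
      ⟨x, hxm⟩ * Subalgebra.inclusion hle r.unop + Subalgebra.inclusion hle (-r')
    rw [hr', map_neg]
    abel
  constructor
  · apply skew_hilbert (Subalgebra.inclusion hle).toRingHom ⟨x, hxm⟩ hx' _ h1
    rintro ⟨s, hs⟩
    obtain ⟨n, hn⟩ := span_left R₀ x hx hle hxm hx' s hs 1 ⟨1, by
      have := Lw_gen (Subalgebra.inclusion hle).toRingHom (⟨x, hxm⟩ : Algebra.adjoin K _) 1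
        (show 0 < 1 by norm_num)
      rwa [map_one, pow_zero, one_mul] at this⟩
    rw [mul_one] at hn
    exact ⟨n, hn⟩
  · apply skew_hilbert (Subalgebra.inclusion hle).toRingHom.op (MulOpposite.op ⟨x, hxm⟩) hx'' _ h2
    intro s
    obtain ⟨n, hn⟩ := span_right R₀ x hle hxm hx'' s.unop.1 s.unop.2 1 ⟨1, by
      have := Lw_gen (Subalgebra.inclusion hle).toRingHom.op
        (MulOpposite.op (⟨x, hxm⟩ : Algebra.adjoin K _)) 1 (show 0 < 1 by norm_num)
      rwa [map_one, pow_zero, one_mul] at this⟩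
    rw [mul_one] at hn
    exact ⟨n, hn⟩

end OA

open OA

variable {K : Type} [Field K] {E : Type} [Ring E] [Algebra K E]

theorem ch_noeth (n : ℕ) (R : Subalgebra K E) (h : Ch K n R) :
    IsNoetherianRing R ∧ IsNoetherianRing Rᵐᵒᵖ := by
  induction n generalizing R with
  | zero =>
    have h' : R = ⊥ := h
    subst h'
    have hsurj : Function.Surjective (algebraMap K (⊥ : Subalgebra K E)) := by
      rintro ⟨s, hs⟩
      obtain ⟨k, rfl⟩ := Algebra.mem_bot.1 hs
      exact ⟨k, rfl⟩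
    constructor
    · exact isNoetherianRing_of_surjective K _ (algebraMap K (⊥ : Subalgebra K E)) hsurj
    · have hcomm : ∀ a b, Commute (algebraMap K (⊥ : Subalgebra K E) a)
          (algebraMap K (⊥ : Subalgebra K E) b) := fun a b => Algebra.commutes a _
      apply isNoetherianRing_of_surjective K _
        ((algebraMap K (⊥ : Subalgebra K E)).toOpposite hcomm)
      intro s
      obtain ⟨k, hk⟩ := hsurj s.unop
      refine ⟨k, ?_⟩
      apply MulOpposite.unop_injective
      exact hk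
  | succ n ih =>
    obtain ⟨R₀, x, h0, hx, rfl⟩ := h
    obtain ⟨h1, h2⟩ := ih R₀ h0
    exact step_noeth R₀ x hx h1 h2

namespace OA

section prime

variable (R₀ : Subalgebra K E) (x b : E)

/-- the additive span of `x ^ i * (v * b)`, `i < m`, `v ∈ R₀` -/
def WW (m : ℕ) : AddSubgroup E :=
  AddSubgroup.closure {s | ∃ v ∈ R₀, ∃ i < m, s = x ^ i * (v * b)}

lemma WW_gen {v : E} (hv : v ∈ R₀) {i m : ℕ} (h : i < m) : x ^ i * (v * b) ∈ WW R₀ x b m :=
  AddSubgroup.subset_closure ⟨v, hv, i, h, rfl⟩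

lemma WW_mono {m n : ℕ} (h : m ≤ n) : WW R₀ x b m ≤ WW R₀ x b n := by
  apply AddSubgroup.closure_mono
  rintro s ⟨v, hv, i, hi, rfl⟩
  exact ⟨v, hv, i, by omega, rfl⟩

lemma WW_x {m : ℕ} {w : E} (hw : w ∈ WW R₀ x b m) : x * w ∈ WW R₀ x b (m + 1) := by
  unfold WW at hw
  induction hw using AddSubgroup.closure_induction with
  | mem s h =>
    obtain ⟨v, hv, i, hi, rfl⟩ := h
    rw [← mul_assoc, ← pow_succ']
    exact WW_gen R₀ x b hv (by omega)
  | zero => rw [mul_zero]; exact zero_mem _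
  | add a b _ _ ha hb => rw [mul_add]; exact add_mem ha hb
  | neg a _ ha => rw [mul_neg]; exact neg_mem ha

/-- the commutation formula -/
lemma WW_comm (hx : ∀ r ∈ R₀, x * r - r * x ∈ R₀) (m : ℕ) : ∀ r ∈ R₀, ∀ v ∈ R₀,
    ∃ w ∈ WW R₀ x b m, r * (x ^ (m + 1) * (v * b)) = x ^ (m + 1) * (r * v * b) -
      (m + 1) • (x ^ m * ((x * r - r * x) * v * b)) + w := by
  induction m with
  | zero =>
    intro r _ v _
    refine ⟨0, zero_mem _, ?_⟩
    simp only [zero_add, pow_one, pow_zero, one_mul, one_smul, add_zero]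
    noncomm_ring
  | succ m ih =>
    intro r hr v hv
    obtain ⟨w, hw, e⟩ := ih r hr v hv
    obtain ⟨w', hw', e'⟩ := ih (x * r - r * x) (hx r hr) v hv
    set d := x * r - r * x with hd
    set dd := x * d - d * x with hdd
    refine ⟨x * w + (m + 1) • (x ^ m * (dd * v * b)) - w', ?_, ?_⟩
    · apply sub_mem
      · apply add_mem (WW_x R₀ x b hw)
        apply nsmul_mem
        rw [show dd * v * b = (dd * v) * b by rfl]
        exact WW_gen R₀ x b (mul_mem (hx d (hx r hr)) hv) (by omega)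
      · exact WW_mono R₀ x b (by omega) hw'
    · have h1 : r * (x ^ (m + 1 + 1) * (v * b)) =
          x * (r * (x ^ (m + 1) * (v * b))) - d * (x ^ (m + 1) * (v * b)) := by
        rw [hd, pow_succ' x (m + 1)]
        noncomm_ring
      rw [h1, e, e', mul_add, mul_sub, mul_smul_comm, ← mul_assoc x (x ^ (m + 1)), ← pow_succ',
        ← mul_assoc x (x ^ m), ← pow_succ', succ_nsmul (n := m + 1)]
      abel

/-- the products of `m` elements of `{q ∈ R₀ | q R₀ b = 0}` -/
def PP : ℕ → Set E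
  | 0 => {1}
  | m + 1 => {q | ∃ q' ∈ PP m, ∃ p ∈ R₀, (∀ u ∈ R₀, p * u * b = 0) ∧ q = q' * p}

lemma PP_mem (m : ℕ) : ∀ q ∈ PP R₀ b m, q ∈ R₀ := by
  induction m with
  | zero => rintro q rfl; exact one_mem _
  | succ m ih =>
    rintro q ⟨q', hq', p, hp, _, rfl⟩
    exact mul_mem (ih q' hq') hp

/-- `p * WW (m+1) ⊆ WW m` -/
lemma WW_p (hx : ∀ r ∈ R₀, x * r - r * x ∈ R₀) {p : E} (hp : p ∈ R₀)
    (hpb : ∀ u ∈ R₀, p * u * b = 0) {m : ℕ} {w : E} (hw : w ∈ WW R₀ x b (m + 1)) :
    p * w ∈ WW R₀ x b m := by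
  unfold WW at hw
  induction hw using AddSubgroup.closure_induction with
  | mem s h =>
    obtain ⟨v, hv, i, hi, rfl⟩ := h
    cases i with
    | zero =>
      rw [pow_zero, one_mul, ← mul_assoc, hpb v hv]
      exact zero_mem _
    | succ j =>
      obtain ⟨w, hw, e⟩ := WW_comm R₀ x b hx j p hp v hv
      rw [e, hpb v hv, mul_zero, zero_sub]
      apply add_mem
      · apply neg_mem
        apply nsmul_mem
        exact WW_gen R₀ x b (mul_mem (hx p hp) hv) (by omega)
      · exact WW_mono R₀ x b (by omega) hw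
  | zero => rw [mul_zero]; exact zero_mem _
  | add a b _ _ ha hb => rw [mul_add]; exact add_mem ha hb
  | neg a _ ha => rw [mul_neg]; exact neg_mem ha

lemma WW_zero : WW R₀ x b 0 = ⊥ := by
  unfold WW
  have : {s | ∃ v ∈ R₀, ∃ i < 0, s = x ^ i * (v * b)} = (∅ : Set E) := by
    ext s; simp
  rw [this, AddSubgroup.closure_empty]

lemma PP_WW (hx : ∀ r ∈ R₀, x * r - r * x ∈ R₀) (m : ℕ) : ∀ q ∈ PP R₀ b m, ∀ w ∈ WW R₀ x b m,
    q * w = 0 := by
  induction m with
  | zero =>
    intro q _ w hw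
    rw [WW_zero, AddSubgroup.mem_bot] at hw
    rw [hw, mul_zero]
  | succ m ih =>
    rintro q ⟨q', hq', p, hp, hpb, rfl⟩ w hw
    rw [mul_assoc]
    exact ih q' hq' _ (WW_p R₀ x b hx hp hpb hw)

/-- under the assumption that `δ(p1)` is not in `l(b) = l(a)` -/
lemma NN [CharZero K] (hx : ∀ r ∈ R₀, x * r - r * x ∈ R₀)
    (hmax : ∀ v ∈ R₀, v * b ≠ 0 → ∀ r ∈ R₀, (∀ u ∈ R₀, r * u * (v * b) = 0) →
      ∀ u ∈ R₀, r * u * b = 0)
    {p1 : E} (hp1 : p1 ∈ R₀) (hp1b : ∀ u ∈ R₀, p1 * u * b = 0)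
    (hnot : ¬ ∀ u ∈ R₀, (x * p1 - p1 * x) * u * b = 0) (m : ℕ) :
    ∀ v ∈ R₀, (∀ q ∈ PP R₀ b m, q * (x ^ m * (v * b)) = 0) → v * b = 0 := by
  induction m with
  | zero =>
    intro v _ h
    have := h 1 rfl
    simpa using this
  | succ m ih =>
    intro v hv h
    by_contra hvb
    apply hnot
    apply hmax v hv hvb _ (hx p1 hp1)
    intro t ht
    -- `a' = t v b`
    have htv : t * v ∈ R₀ := mul_mem ht hv
    have h' : ∀ q ∈ PP R₀ b (m + 1), q * (x ^ (m + 1) * (t * v * b)) = 0 := by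
      rintro q ⟨q', hq', p, hp, hpb, rfl⟩
      obtain ⟨w, hw, e⟩ := WW_comm R₀ x b hx m t ht v hv
      have e2 : x ^ (m + 1) * (t * v * b) = t * (x ^ (m + 1) * (v * b)) +
          ((m + 1) • (x ^ m * ((x * t - t * x) * v * b)) - w) := by
        rw [e]; abel
      have hq : q' * p ∈ PP R₀ b (m + 1) := ⟨q', hq', p, hp, hpb, rfl⟩
      have hqt : q' * p * t ∈ PP R₀ b (m + 1) :=
        ⟨q', hq', p * t, mul_mem hp ht, fun u hu => by
          rw [mul_assoc p t u]; exact hpb _ (mul_mem ht hu), by rw [mul_assoc]⟩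
      rw [e2, mul_add, ← mul_assoc (q' * p) t, h _ hqt, zero_add]
      apply PP_WW R₀ x b hx (m + 1) _ hq
      apply sub_mem
      · apply nsmul_mem
        exact WW_gen R₀ x b (mul_mem (hx t ht) hv) (by omega)
      · exact WW_mono R₀ x b (by omega) hw
    have h2 : ((x * p1 - p1 * x) * (t * v)) * b = 0 := by
      apply ih _ (mul_mem (hx p1 hp1) htv)
      intro q' hq'
      have hq : q' * p1 ∈ PP R₀ b (m + 1) := ⟨q', hq', p1, hp1, hp1b, rfl⟩
      have h3 := h' _ hq
      obtain ⟨w, hw, e⟩ := WW_comm R₀ x b hx m p1 hp1 (t * v) htv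
      rw [mul_assoc q' p1, e, hp1b _ htv, mul_zero, zero_sub, mul_add, mul_neg,
        PP_WW R₀ x b hx m q' hq' w hw, add_zero, neg_eq_zero, mul_smul_comm] at h3
      have h4 : ((m : K) + 1) • (q' * (x ^ m * ((x * p1 - p1 * x) * (t * v) * b))) = 0 := by
        rw [← h3]
        rw [← Nat.cast_smul_eq_nsmul K (m + 1)]
        push_cast
        rfl
      rcases smul_eq_zero.1 h4 with h5 | h5
      · exact absurd h5 (by exact_mod_cast Nat.succ_ne_zero m)
      · exact h5
    calc (x * p1 - p1 * x) * t * (v * b) = ((x * p1 - p1 * x) * (t * v)) * b := by noncomm_ring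
      _ = 0 := h2

/-- the right ideals `U_m` -/
def UU (R : Subalgebra K E) (m : ℕ) : Submodule Rᵐᵒᵖ Rᵐᵒᵖ where
  carrier := {s | ∀ k, m ≤ k → ∀ q ∈ PP R₀ b k, q * (s.unop : E) = 0}
  add_mem' := by
    intro a c ha hc k hk q hq
    show q * ((a.unop : E) + (c.unop : E)) = 0
    rw [mul_add, ha k hk q hq, hc k hk q hq, add_zero]
  zero_mem' := by
    intro k _ q _
    show q * ((0 : R) : E) = 0
    simp
  smul_mem' := by
    intro t a ha k hk q hq
    show q * ((a.unop : E) * (t.unop : E)) = 0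
    rw [← mul_assoc, ha k hk q hq, zero_mul]

/-- the additive span of `x ^ j * q` with `q R₀ b = 0` -/
def VV : AddSubgroup E :=
  AddSubgroup.closure {s | ∃ j : ℕ, ∃ q ∈ R₀, (∀ u ∈ R₀, q * u * b = 0) ∧ s = x ^ j * q}

end prime

end OA

theorem prime_sub [CharZero K] (R₀ R : Subalgebra K E) (x : E)
    (hx : ∀ r ∈ R₀, x * r - r * x ∈ R₀) (hR : R = Algebra.adjoin K (insert x (R₀ : Set E)))
    (hN₀ : IsNoetherianRing R₀) (hNr : IsNoetherianRing Rᵐᵒᵖ) (hP : PrimeS R) : PrimeS R₀ := by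
  have hle : R₀ ≤ R := by
    rw [hR]
    exact fun r hr => Algebra.subset_adjoin (Set.mem_insert_of_mem _ hr)
  have hxR : x ∈ R := by
    rw [hR]
    exact Algebra.subset_adjoin (Set.mem_insert _ _)
  -- the left ideals `l(b)`
  let l : E → Submodule R₀ R₀ := fun b =>
    { carrier := {r | ∀ u ∈ R₀, (r : E) * u * b = 0}
      add_mem' := by
        intro a c ha hc u hu
        show ((a : E) + (c : E)) * u * b = 0
        rw [add_mul, add_mul, ha u hu, hc u hu, add_zero]
      zero_mem' := by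
        intro u _
        show (0 : E) * u * b = 0
        simp
      smul_mem' := by
        intro c a ha u hu
        show (c : E) * (a : E) * u * b = 0
        rw [mul_assoc (c : E), mul_assoc (c : E), ha u hu, mul_zero] }
  have hl : ∀ (b : E) (r : R₀), r ∈ l b ↔ ∀ u ∈ R₀, (r : E) * u * b = 0 := fun b r => Iff.rfl
  obtain ⟨_, ⟨b, ⟨hb, hb0⟩, rfl⟩, hmax⟩ := (wellFounded_gt (α := Submodule R₀ R₀)).has_min
    (l '' {b | b ∈ R₀ ∧ b ≠ 0}) ⟨l 1, 1, ⟨one_mem _, hP.1⟩, rfl⟩
  have hmax' : ∀ b' ∈ R₀, b' ≠ 0 → l b ≤ l b' → l b' ≤ l b := by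
    intro b' hb' hb'0 hle'
    by_contra hne
    exact hmax (l b') ⟨b', ⟨hb', hb'0⟩, rfl⟩ (lt_of_le_not_ge hle' hne)
  -- `p = l b` is stable under `δ`
  have hmax2 : ∀ v ∈ R₀, v * b ≠ 0 → ∀ r ∈ R₀, (∀ u ∈ R₀, r * u * (v * b) = 0) →
      ∀ u ∈ R₀, r * u * b = 0 := by
    intro v hv hvb r hr h
    have h1 : l b ≤ l (v * b) := by
      intro q hq u hu
      have := hq (u * v) (mul_mem hu hv)
      rw [← mul_assoc]
      rw [← mul_assoc] at this
      exact this
    have h2 := hmax' (v * b) (mul_mem hv hb) hvb h1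
    exact h2 (show (⟨r, hr⟩ : R₀) ∈ l (v * b) from h)
  have hdelta : ∀ p1 ∈ R₀, (∀ u ∈ R₀, p1 * u * b = 0) → ∀ u ∈ R₀, (x * p1 - p1 * x) * u * b = 0 := by
    intro p1 hp1 hp1b
    by_contra hnot
    have hN := NN R₀ x b hx hmax2 hp1 hp1b hnot
    have hacc := monotone_stabilizes_iff_noetherian.2 hNr
    obtain ⟨m, hm⟩ := hacc ⟨fun m => UU R₀ b R m, fun a c hac s hs k hk => hs k (hac.trans hk)⟩
    have hxb : x ^ m * b ∈ R := mul_mem (pow_mem hxR m) (hle hb)
    have hmem : MulOpposite.op (⟨x ^ m * b, hxb⟩ : R) ∈ UU R₀ b R (m + 1) := by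
      intro k hk q hq
      show q * (x ^ m * b) = 0
      apply PP_WW R₀ x b hx k q hq
      have := WW_gen R₀ x b (one_mem R₀) (show m < k by omega)
      rwa [one_mul] at this
    have heq : UU R₀ b R m = UU R₀ b R (m + 1) := hm (m + 1) (by omega)
    rw [← heq] at hmem
    apply hb0
    have := hN m 1 (one_mem _) (by
      intro q hq
      rw [one_mul]
      exact hmem m le_rfl q hq)
    rwa [one_mul] at this
  -- `p R b = 0`
  have hVR : ∀ s ∈ R, ∀ z ∈ VV R₀ x b, z * s ∈ VV R₀ x b := by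
    intro s hs
    rw [hR] at hs
    induction hs using Algebra.adjoin_induction with
    | mem s hs =>
      intro z hz
      unfold VV at hz
      induction hz using AddSubgroup.closure_induction with
      | mem z h =>
        obtain ⟨j, q, hq, hqb, rfl⟩ := h
        rcases hs with rfl | hs
        · have e : s ^ j * q * s = s ^ (j + 1) * q - s ^ j * (s * q - q * s) := by
            rw [pow_succ]; noncomm_ring
          rw [e]
          apply sub_mem
          · exact AddSubgroup.subset_closure ⟨j + 1, q, hq, hqb, rfl⟩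
          · exact AddSubgroup.subset_closure ⟨j, _, hx q hq, hdelta q hq hqb, rfl⟩
        · rw [mul_assoc]
          exact AddSubgroup.subset_closure ⟨j, q * s, mul_mem hq hs, fun u hu => by
            rw [mul_assoc q s u]; exact hqb _ (mul_mem hs hu), rfl⟩
      | zero => rw [zero_mul]; exact zero_mem _
      | add a c _ _ ha hc => rw [add_mul]; exact add_mem ha hc
      | neg a _ ha => rw [neg_mul]; exact neg_mem ha
    | algebraMap k =>
      intro z hz
      unfold VV at hz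
      induction hz using AddSubgroup.closure_induction with
      | mem z h =>
        obtain ⟨j, q, hq, hqb, rfl⟩ := h
        rw [mul_assoc]
        exact AddSubgroup.subset_closure ⟨j, _, mul_mem hq (R₀.algebraMap_mem k), fun u hu => by
          rw [mul_assoc q _ u]; exact hqb _ (mul_mem (R₀.algebraMap_mem k) hu), rfl⟩
      | zero => rw [zero_mul]; exact zero_mem _
      | add a c _ _ ha hc => rw [add_mul]; exact add_mem ha hc
      | neg a _ ha => rw [neg_mul]; exact neg_mem ha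
    | add a c _ _ ha hc =>
      intro z hz
      rw [mul_add]
      exact add_mem (ha z hz) (hc z hz)
    | mul a c _ _ ha hc =>
      intro z hz
      rw [← mul_assoc]
      exact hc _ (ha z hz)
  have hVb : ∀ z ∈ VV R₀ x b, z * b = 0 := by
    intro z hz
    unfold VV at hz
    induction hz using AddSubgroup.closure_induction with
    | mem z h =>
      obtain ⟨j, q, hq, hqb, rfl⟩ := h
      have := hqb 1 (one_mem _)
      rw [mul_one] at this
      rw [mul_assoc, this, mul_zero]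
    | zero => rw [zero_mul]
    | add a c _ _ ha hc => rw [add_mul, ha, hc, add_zero]
    | neg a _ ha => rw [neg_mul, ha, neg_zero]
  have hp0 : ∀ q ∈ R₀, (∀ u ∈ R₀, q * u * b = 0) → q = 0 := by
    intro q hq hqb
    rcases hP.2 q (hle hq) b (hle hb) (fun s hs => by
      apply hVb
      apply hVR s hs
      exact AddSubgroup.subset_closure ⟨0, q, hq, hqb, by rw [pow_zero, one_mul]⟩) with h | h
    · exact h
    · exact absurd h hb0
  refine ⟨hP.1, ?_⟩
  intro a ha c hc hac
  by_cases hc0 : c = 0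
  · exact Or.inr hc0
  left
  -- `c` is not in `p`, so some `c u b` is nonzero
  have hex : ∃ u ∈ R₀, c * u * b ≠ 0 := by
    by_contra hno
    push Not at hno
    exact hc0 (hp0 c hc hno)
  obtain ⟨u, hu, hub⟩ := hex
  apply hp0 a ha
  have h1 : l b ≤ l (c * u * b) := by
    intro q hq v hv
    have := hq (v * c * u) (mul_mem (mul_mem hv hc) hu)
    calc (q : E) * v * (c * u * b) = q * (v * c * u) * b := by noncomm_ring
      _ = 0 := this
  have h2 := hmax' (c * u * b) (mul_mem (mul_mem hc hu) hb) hub h1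
  have h3 : (⟨a, ha⟩ : R₀) ∈ l (c * u * b) := by
    intro v hv
    calc a * v * (c * u * b) = (a * v * c) * u * b := by noncomm_ring
      _ = 0 := by rw [hac v hv, zero_mul, zero_mul]
  exact h2 h3

end Pool.Agent.R693.O
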